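import Mathlib

/-! # Ordering the vertices of a forest -/

set_option autoImplicit false
open Classical

namespace Pool.Agent.Helper44.Rsl

theorem lex_lt {m m' n e e' : ℕ} (h : m < m') (he : e < n) : m * n + e < m' * n + e' := by
  have h1 : (m + 1) * n ≤ m' * n := Nat.mul_le_mul_right n h
  have h2 : (m + 1) * n = m * n + n := by ring
  omega

/-- An ordering of a forest: components one after the other, every component starts with its root
and every other vertex has exactly one earlier neighbour. -/
theorem forest_rank {W : Type} [Fintype W] (H : SimpleGraph W) (hH : H.IsAcyclic) :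
    ∃ (ρ : W → ℕ) (root : W → W), Function.Injective ρ ∧
      (∀ b, root (root b) = root b) ∧
      (∀ b b', H.Adj b b' → root b = root b') ∧
      (∀ b, b = root b → ∀ u, H.Adj b u → ρ b < ρ u) ∧
      (∀ b, b ≠ root b → ∃ u, H.Adj b u ∧ ρ u < ρ b ∧ ∀ u', H.Adj b u' → ρ u' < ρ b → u' = u) ∧
      (∀ b b', ¬ H.Reachable b b' → ρ b < ρ (root b') ∨ ρ b' < ρ (root b)) := by
  have : Finite H.ConnectedComponent := Quot.finite _
  obtain ⟨nc, ⟨ec⟩⟩ := Finite.exists_equiv_fin H.ConnectedComponent
  set c : W → ℕ := fun b => (ec (H.connectedComponentMk b) : ℕ) with hc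
  set root : W → W := fun b => (H.connectedComponentMk b).out with hroot
  have hrr : ∀ b, H.connectedComponentMk (root b) = H.connectedComponentMk b := fun b =>
    Quot.out_eq _
  have hreach : ∀ b, H.Reachable (root b) b := fun b => SimpleGraph.ConnectedComponent.exact (hrr b)
  set d : W → ℕ := fun b => H.dist (root b) b with hd
  set D : ℕ := Finset.univ.sup d + 1 with hD
  have hdD : ∀ b, d b < D := fun b => Nat.lt_succ_of_le (Finset.le_sup (f := d) (Finset.mem_univ b))
  obtain ⟨n, ⟨e⟩⟩ := Finite.exists_equiv_fin W
  set ρ : W → ℕ := fun b => (c b * D + d b) * n + e b with hρ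
  have hinj : Function.Injective ρ := by
    intro a b hab
    have h1 : ∀ a b, ¬ ((c a * D + d a) < (c b * D + d b)) ∨ ρ a < ρ b := by
      intro a b
      by_cases h : (c a * D + d a) < (c b * D + d b)
      · exact Or.inr (lex_lt h (e a).2)
      · exact Or.inl h
    have h2 := h1 a b
    have h3 := h1 b a
    have h4 : c a * D + d a = c b * D + d b := by omega
    have h5 : (e a : ℕ) = e b := by
      have h6 : (c a * D + d a) * n + e a = (c b * D + d b) * n + e b := hab
      rw [h4] at h6
      omega
    exact e.injective (Fin.ext h5)
  have hcomp : ∀ a b, c a < c b → ρ a < ρ b := fun a b h => lex_lt (lex_lt h (hdD a)) (e a).2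
  have hdist : ∀ a b, c a = c b → d a < d b → ρ a < ρ b := by
    intro a b h1 h2
    refine lex_lt ?_ (e a).2
    rw [h1]
    omega
  have hceq : ∀ a b, H.Reachable a b → c a = c b := by
    intro a b h
    simp only [hc]
    rw [SimpleGraph.ConnectedComponent.sound h]
  have hrootadj : ∀ b b', H.Adj b b' → root b = root b' := by
    intro b b' h
    simp only [hroot]
    rw [SimpleGraph.ConnectedComponent.sound h.reachable]
  -- the distance to the root changes by one along an edge
  have hdd : ∀ b u, H.Adj b u → d b = d u + 1 ∨ d u = d b + 1 := by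
    intro b u h
    have h1 := hH.dist_eq_dist_add_one_of_adj_of_reachable (root b) h (hreach b)
    have h2 : d u = H.dist (root b) u := by simp only [hd]; rw [hrootadj b u h]
    rw [h2]
    exact h1
  have hcadj : ∀ b u, H.Adj b u → c b = c u := fun b u h => hceq b u h.reachable
  have hlt : ∀ b u, H.Adj b u → ρ u < ρ b → d b = d u + 1 := by
    intro b u h hr
    rcases hdd b u h with h1 | h1
    · exact h1
    · have := hdist b u (hcadj b u h) (by omega)
      omega
  refine ⟨ρ, root, hinj, ?_, hrootadj, ?_, ?_, ?_⟩
  · intro b
    exact congrArg Quot.out (hrr b)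
  · intro b hb u h
    have h0 : d b = 0 := by
      simp only [hd]
      rw [← hb]
      exact SimpleGraph.dist_self
    rcases hdd b u h with h1 | h1
    · omega
    · exact hdist b u (hcadj b u h) (by omega)
  · intro b hb
    obtain ⟨p, hp, hpl⟩ := (hreach b).exists_path_of_dist
    have hnil : ¬ p.Nil := SimpleGraph.Walk.not_nil_of_ne (fun h => hb h.symm)
    have hadj : H.Adj p.penultimate b := p.adj_penultimate hnil
    have hpd : d p.penultimate + 1 ≤ d b := by
      have h1 : H.dist (root b) p.penultimate ≤ p.dropLast.length := SimpleGraph.dist_le _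
      have h2 : p.dropLast.length + 1 = p.length := by
        rw [SimpleGraph.Walk.length_dropLast_add_one hnil]
      have h3 : d p.penultimate = H.dist (root b) p.penultimate := by
        simp only [hd]
        rw [hrootadj _ _ hadj]
      rw [h3]
      have h4 : d b = p.length := hpl.symm
      omega
    refine ⟨p.penultimate, hadj.symm, ?_, ?_⟩
    · exact hdist _ _ (hcadj _ _ hadj) (by omega)
    · intro u h hr
      have h1 := hlt b u h hr
      have hru : root u = root b := (hrootadj b u h).symm
      obtain ⟨q, hq, hql⟩ := (hreach u).exists_path_of_dist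
      have hbq : b ∉ q.support := by
        intro hmem
        have h2 : H.dist (root u) b ≤ (q.takeUntil b hmem).length := SimpleGraph.dist_le _
        have h3 := q.length_takeUntil_le_length hmem
        have h4 : d u = q.length := hql.symm
        have h5 : d b = H.dist (root u) b := by
          simp only [hd]
          rw [hru]
        omega
      have hup : u ∈ p.support := by
        revert q
        rw [hru]
        intro q hq hql hbq
        exact hH.mem_support_of_ne_mem_support_of_adj_of_isPath hp hq h hbq
      exact hH.eq_penultimate_of_adj_end hp h hup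
  · intro b b' hnr
    have h1 : c b ≠ c b' := by
      intro h
      exact hnr (SimpleGraph.ConnectedComponent.exact (ec.injective (Fin.ext h)))
    have h2 : ∀ a, c (root a) = c a := fun a => hceq _ _ (hreach a)
    rcases lt_or_gt_of_ne h1 with h | h
    · exact Or.inl (hcomp _ _ (by rw [h2]; exact h))
    · exact Or.inr (hcomp _ _ (by rw [h2]; exact h))

end Pool.Agent.Helper44.Rsl
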