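import Pool.Agent.Helper44.Rsl.DefsF
import Pool.Agent.Helper44.Rsl.ForestRank

/-! # Graphs with a forest outside which every vertex has at most two earlier neighbours -/

set_option autoImplicit false
open Classical

namespace Pool.Agent.Helper44.Rsl
open Pool.Agent.Helper14.Rsl (back)

variable {V : Type}

/-- the vertex of `P` is mapped to the apex `none` -/
noncomputable def iot (P : Set V) (a : V) : Option V := if a ∈ P then none else some a

/-- the image of `G` together with all edges between the apex and `B` -/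
def apexT (G : SimpleGraph V) (B P : Set V) : SimpleGraph (Option V) where
  Adj u v := u ≠ v ∧ ((∃ a b, G.Adj a b ∧ iot P a = u ∧ iot P b = v) ∨
    (u = none ∧ ∃ b ∈ B, v = some b) ∨ (v = none ∧ ∃ b ∈ B, u = some b))
  symm := ⟨fun _ _ h => ⟨h.1.symm, h.2.elim (fun ⟨a, b, h1, h2, h3⟩ => Or.inl ⟨b, a, h1.symm, h3, h2⟩)
    fun h' => Or.inr h'.symm⟩⟩
  loopless := ⟨fun _ h => h.1 rfl⟩

/-- the edges between the apex and `B` -/
def apexK (B : Set V) : SimpleGraph (Option V) where
  Adj u v := (u = none ∧ ∃ b ∈ B, v = some b) ∨ (v = none ∧ ∃ b ∈ B, u = some b)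
  symm := ⟨fun _ _ h => h.symm⟩
  loopless := ⟨fun u h => by
    rcases h with ⟨rfl, b, _, h⟩ | ⟨rfl, b, _, h⟩ <;> exact absurd h (by simp)⟩

theorem apexK_le (G : SimpleGraph V) (B P : Set V) : apexK B ≤ apexT G B P := by
  intro u v h
  refine ⟨h.ne, Or.inr h⟩

theorem iot_inj (P : Set V) (hP : P.Subsingleton) : Function.Injective (iot P) := by
  intro a b hab
  unfold iot at hab
  split_ifs at hab with h1 h2 h2
  · exact hP h1 h2
  · exact Option.some.inj hab

theorem iot_of_notMem {P : Set V} {a : V} (h : a ∉ P) : iot P a = some a := if_neg h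

theorem iot_of_mem {P : Set V} {a : V} (h : a ∈ P) : iot P a = none := if_pos h

theorem iot_eq_some {P : Set V} {a v : V} (h : iot P a = some v) : a = v ∧ a ∉ P := by
  unfold iot at h
  split_ifs at h with h1
  exact ⟨Option.some.inj h, h1⟩

/-- A graph with a forest `G[B]` and a vertex `p` outside `B` (or none: `P` has at most one
element), such that every further vertex has at most two earlier neighbours, and two earlier
neighbours are adjacent, or both are in `B ∪ {p}` and not in the same component of `G[B]`, is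
contained in a graph of the class `BuildF`. -/
theorem exists_buildF [Fintype V] (G : SimpleGraph V) (B P : Set V) (r : V → ℕ)
    (hr : Function.Injective r) (hP : P.Subsingleton) (hBP : ∀ p ∈ P, p ∉ B)
    (hacy : (G.induce B).IsAcyclic)
    (hfirst : ∀ a ∈ B ∪ P, ∀ v ∉ B ∪ P, r a < r v)
    (h2 : ∀ v ∉ B ∪ P, (back G r v).encard ≤ 2)
    (h3 : ∀ v ∉ B ∪ P, ∀ x ∈ back G r v, ∀ x' ∈ back G r v, x ≠ x' → G.Adj x x' ∨
      (x ∈ B ∪ P ∧ x' ∈ B ∪ P ∧
        ∀ (hx : x ∈ B) (hx' : x' ∈ B), ¬ (G.induce B).Reachable ⟨x, hx⟩ ⟨x', hx'⟩)) :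
    ∃ (T K : SimpleGraph (Option V)) (R : Option V → ℕ) (e : V → Option V), BuildF T K R ∅ ∧
      Function.Injective e ∧ ∀ a b, G.Adj a b → T.Adj (e a) (e b) := by
  obtain ⟨ρ, root, hinj, hrr, hradj, hroot, hpar, hcomp⟩ := forest_rank (G.induce B) hacy
  obtain ⟨M, hM⟩ : ∃ M, ∀ b, ρ b < M :=
    ⟨Finset.univ.sup ρ + 1, fun b => Nat.lt_succ_of_le (Finset.le_sup (Finset.mem_univ b))⟩
  set T := apexT G B P with hT
  set K := apexK B with hK
  have hBnP : ∀ b ∈ B, b ∉ P := fun b hb hp => hBP b hp hb
  have hιB : ∀ b ∈ B, iot P b = some b := fun b hb => iot_of_notMem (hBnP b hb)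
  have hιinj := iot_inj P hP
  set R : Option V → ℕ := fun o => match o with
    | none => 0
    | some v => if h : v ∈ B then 1 + ρ ⟨v, h⟩ else 1 + M + r v with hR
  have hR0 : R none = 0 := rfl
  have hRB : ∀ (b : V) (hb : b ∈ B), R (some b) = 1 + ρ ⟨b, hb⟩ := fun b hb => dif_pos hb
  have hRO : ∀ v, v ∉ B → R (some v) = 1 + M + r v := fun v hv => dif_neg hv
  have hRinj : Function.Injective R := by
    rintro (_ | a) (_ | b) hab
    · rfl
    · exfalso
      by_cases hb : b ∈ B
      · rw [hR0, hRB b hb] at hab; omega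
      · rw [hR0, hRO b hb] at hab; omega
    · exfalso
      by_cases ha : a ∈ B
      · rw [hR0, hRB a ha] at hab; omega
      · rw [hR0, hRO a ha] at hab; omega
    · by_cases ha : a ∈ B
      · by_cases hb : b ∈ B
        · rw [hRB a ha, hRB b hb] at hab
          have h1 : (⟨a, ha⟩ : B) = ⟨b, hb⟩ := hinj (by omega)
          rw [Subtype.mk.injEq] at h1
          rw [h1]
        · rw [hRB a ha, hRO b hb] at hab
          have := hM ⟨a, ha⟩
          omega
      · by_cases hb : b ∈ B
        · rw [hRO a ha, hRB b hb] at hab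
          have := hM ⟨b, hb⟩
          omega
        · rw [hRO a ha, hRO b hb] at hab
          rw [hr (show r a = r b by omega)]
  -- earlier neighbours of a vertex outside `B ∪ P`
  have hbackO : ∀ v, v ∉ B ∪ P → back T R (some v) = iot P '' back G r v := by
    intro v hv
    have hvB : v ∉ B := fun h => hv (Or.inl h)
    have hvP : v ∉ P := fun h => hv (Or.inr h)
    ext u
    constructor
    · rintro ⟨⟨hne, hadj⟩, hlt⟩
      rcases hadj with ⟨a, b, hab, ha, hb⟩ | ⟨h, _⟩ | ⟨_, b, hb, h⟩
      · obtain ⟨rfl, _⟩ := iot_eq_some ha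
        refine ⟨b, ⟨hab, ?_⟩, hb⟩
        by_cases hbB : b ∈ B ∪ P
        · exact hfirst b hbB a hv
        · have h1 : b ∉ B := fun h => hbB (Or.inl h)
          have h4 : b ∉ P := fun h => hbB (Or.inr h)
          rw [← hb, iot_of_notMem h4, hRO b h1, hRO a hvB] at hlt
          omega
      · exact absurd h (by simp)
      · exact absurd (Option.some.inj h ▸ hb) hvB
    · rintro ⟨b, ⟨hab, hlt⟩, rfl⟩
      refine ⟨⟨?_, Or.inl ⟨v, b, hab, iot_of_notMem hvP, rfl⟩⟩, ?_⟩
      · intro h
        rw [← iot_of_notMem hvP] at h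
        exact hab.ne (hιinj h)
      · rw [hRO v hvB]
        by_cases hbP : b ∈ P
        · rw [iot_of_mem hbP, hR0]; omega
        · rw [iot_of_notMem hbP]
          by_cases hbB : b ∈ B
          · rw [hRB b hbB]
            have := hM ⟨b, hbB⟩
            omega
          · rw [hRO b hbB]
            omega
  -- earlier neighbours of a vertex of `B`
  have hbackB : ∀ (b : V) (hb : b ∈ B) (u : Option V), u ∈ back T R (some b) → u = none ∨
      ∃ (c : V) (hc : c ∈ B), u = some c ∧ G.Adj b c ∧ ρ ⟨c, hc⟩ < ρ ⟨b, hb⟩ := by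
    rintro b hb u ⟨⟨hne, hadj⟩, hlt⟩
    rcases hadj with ⟨a, c, hac, ha, hc⟩ | ⟨h, _⟩ | ⟨h, _⟩
    · obtain ⟨rfl, _⟩ := iot_eq_some ha
      by_cases hcP : c ∈ P
      · left; rw [← hc, iot_of_mem hcP]
      · right
        rw [← hc, iot_of_notMem hcP, hRB a hb] at hlt
        have hcB : c ∈ B := by
          by_contra hcB
          rw [hRO c hcB] at hlt
          have := hM ⟨a, hb⟩
          omega
        rw [hRB c hcB] at hlt
        exact ⟨c, hcB, by rw [← hc, iot_of_notMem hcP], hac, by omega⟩
    · exact absurd h (by simp)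
    · exact Or.inl h
  have hKB : ∀ b ∈ B, K.Adj (some b) none := fun b hb => Or.inr ⟨rfl, b, hb, rfl⟩
  have hKn : ∀ a b : V, ¬ K.Adj (some a) (some b) := by
    rintro a b (⟨h, _⟩ | ⟨h, _⟩) <;> exact absurd h (by simp)
  have hnone : ∀ b ∈ B, none ∈ back T R (some b) := by
    intro b hb
    refine ⟨(apexK_le G B P (hKB b hb)), ?_⟩
    rw [hR0, hRB b hb]
    omega
  have hchild : ∀ (b c : V) (hb : b ∈ B) (hc : c ∈ B), G.Adj b c → ρ ⟨c, hc⟩ < ρ ⟨b, hb⟩ →
      some c ∈ back T R (some b) := by
    intro b c hb hc hbc hlt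
    refine ⟨⟨?_, Or.inl ⟨b, c, hbc, hιB b hb, hιB c hc⟩⟩, ?_⟩
    · intro h
      exact hbc.ne (Option.some.inj h)
    · rw [hRB c hc, hRB b hb]
      omega
  have hbroot : ∀ (b : V) (hb : b ∈ B), (⟨b, hb⟩ : B) = root ⟨b, hb⟩ →
      back T R (some b) = {none} := by
    intro b hb hrb
    ext u
    constructor
    · intro hu
      rcases hbackB b hb u hu with h | ⟨c, hc, _, hbc, hlt⟩
      · exact h
      · have := hroot ⟨b, hb⟩ hrb ⟨c, hc⟩ (by simpa using hbc)
        omega
    · intro hu
      have : u = none := hu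
      rw [this]
      exact hnone b hb
  have hbpar : ∀ (b : V) (hb : b ∈ B), (⟨b, hb⟩ : B) ≠ root ⟨b, hb⟩ →
      ∃ (c : V) (hc : c ∈ B), G.Adj b c ∧ ρ ⟨c, hc⟩ < ρ ⟨b, hb⟩ ∧
        back T R (some b) = {none, some c} := by
    intro b hb hrb
    obtain ⟨⟨c, hc⟩, hbc, hlt, huniq⟩ := hpar ⟨b, hb⟩ hrb
    have hbc' : G.Adj b c := by simpa using hbc
    refine ⟨c, hc, hbc', hlt, ?_⟩
    ext u
    constructor
    · intro hu
      rcases hbackB b hb u hu with h | ⟨c', hc', h, hbc', hlt'⟩
      · exact Or.inl h
      · have h4 := huniq ⟨c', hc'⟩ (by simpa using hbc') hlt'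
        rw [Subtype.mk.injEq] at h4
        rw [h, h4]
        exact Or.inr rfl
    · rintro (h | h)
      · rw [h]; exact hnone b hb
      · have h4 : u = some c := h
        rw [h4]
        exact hchild b c hb hc hbc' hlt
  -- every vertex of the forest lies in the tree of its root
  have htree : ∀ (k : ℕ) (b : V) (hb : b ∈ B), ρ ⟨b, hb⟩ < k →
      InTree T K R ∅ none (some b) (some (root ⟨b, hb⟩ : V)) := by
    intro k
    induction k with
    | zero => intro b hb h; omega
    | succ k ih =>
      intro b hb hk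
      by_cases hrb : (⟨b, hb⟩ : B) = root ⟨b, hb⟩
      · have h1 : ((root ⟨b, hb⟩ : B) : V) = b := by rw [← hrb]
        rw [h1]
        exact InTree.root (some b) (Set.notMem_empty _) (hbroot b hb hrb) (hKB b hb)
      · obtain ⟨c, hc, hbc, hlt, hbk⟩ := hbpar b hb hrb
        have h1 : root ⟨b, hb⟩ = root ⟨c, hc⟩ := hradj ⟨b, hb⟩ ⟨c, hc⟩ (by simpa using hbc)
        rw [h1]
        exact InTree.step (some b) (some c) _ (Set.notMem_empty _) hbk (by simp) (hKB b hb)
          (hKn b c) (ih c hc (by omega))
  have htree' : ∀ (b : V) (hb : b ∈ B),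
      InTree T K R ∅ none (some b) (some (root ⟨b, hb⟩ : V)) := fun b hb =>
    htree (ρ ⟨b, hb⟩ + 1) b hb (Nat.lt_succ_self _)
  refine ⟨T, K, R, iot P, ⟨hRinj, fun a ha => absurd ha (Set.notMem_empty a), apexK_le G B P,
    ?_, ?_⟩, hιinj, ?_⟩
  · -- at most two earlier neighbours
    rintro (_ | v) _
    · have : back T R none = ∅ := by
        ext u
        simp only [Set.mem_empty_iff_false, iff_false]
        rintro ⟨_, h⟩
        rw [hR0] at h
        omega
      rw [this]
      simp
    · by_cases hvB : v ∈ B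
      · by_cases hrb : (⟨v, hvB⟩ : B) = root ⟨v, hvB⟩
        · rw [hbroot v hvB hrb]
          simp
        · obtain ⟨c, hc, hbc, hlt, hbk⟩ := hbpar v hvB hrb
          rw [hbk]
          refine (Set.encard_insert_le _ _).trans ?_
          rw [Set.encard_singleton]
          exact le_of_eq one_add_one_eq_two
      · by_cases hvP : v ∈ P
        · have : back T R (some v) = ∅ := by
            ext u
            simp only [Set.mem_empty_iff_false, iff_false]
            rintro ⟨⟨_, hadj⟩, _⟩
            rcases hadj with ⟨a, b, hab, ha, hb⟩ | ⟨h, _⟩ | ⟨_, b, hb, h⟩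
            · obtain ⟨h1, h4⟩ := iot_eq_some ha
              exact h4 (h1 ▸ hvP)
            · exact absurd h (by simp)
            · exact hvB (Option.some.inj h ▸ hb)
          rw [this]
          simp
        · have hv : v ∉ B ∪ P := fun h => h.elim hvB hvP
          rw [hbackO v hv, hιinj.encard_image]
          exact h2 v hv
  · -- the rule
    rintro (_ | v) _ x hx x' hx' hne
    · have := hx.2
      rw [hR0] at this
      omega
    · by_cases hvB : v ∈ B
      · have key : ∀ x x', x ∈ back T R (some v) → x' ∈ back T R (some v) → x ≠ x' →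
            (x = none ∧ ∃ c ∈ B, x' = some c) ∨ (x' = none ∧ ∃ c ∈ B, x = some c) := by
          intro x x' hx hx' hne
          by_cases hrb : (⟨v, hvB⟩ : B) = root ⟨v, hvB⟩
          · rw [hbroot v hvB hrb] at hx hx'
            exact absurd (hx.trans hx'.symm) hne
          · obtain ⟨c, hc, hbc, hlt, hbk⟩ := hbpar v hvB hrb
            rw [hbk] at hx hx'
            rcases hx with hx | hx <;> rcases hx' with hx' | hx'
            · exact absurd (hx.trans hx'.symm) hne
            · exact Or.inl ⟨hx, c, hc, hx'⟩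
            · exact Or.inr ⟨hx', c, hc, hx⟩
            · exact absurd (hx.trans (hx' : x' = some c).symm) hne
        left
        rcases key x x' hx hx' hne with ⟨rfl, c, hc, rfl⟩ | ⟨rfl, c, hc, rfl⟩
        · exact ⟨(apexK_le G B P (hKB c hc)).symm, fun h => hKn v c h.2, fun _ => (hKB c hc).symm⟩
        · exact ⟨apexK_le G B P (hKB c hc), fun h => hKn v c h.1, fun _ => hKB c hc⟩
      · by_cases hvP : v ∈ P
        · exfalso
          obtain ⟨⟨_, hadj⟩, _⟩ := hx
          rcases hadj with ⟨a, b, hab, ha, hb⟩ | ⟨h, _⟩ | ⟨_, b, hb, h⟩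
          · obtain ⟨h1, h4⟩ := iot_eq_some ha
            exact h4 (h1 ▸ hvP)
          · exact absurd h (by simp)
          · exact hvB (Option.some.inj h ▸ hb)
        · have hv : v ∉ B ∪ P := fun h => h.elim hvB hvP
          rw [hbackO v hv] at hx hx'
          obtain ⟨a, ha, rfl⟩ := hx
          obtain ⟨a', ha', rfl⟩ := hx'
          have haa' : a ≠ a' := fun h => hne (by rw [h])
          have hKv : ∀ u, ¬ K.Adj (some v) u := by
            rintro u (⟨h, _⟩ | ⟨_, b, hb, h⟩)
            · exact absurd h (by simp)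
            · exact hvB (Option.some.inj h ▸ hb)
          have hadjcase : T.Adj (iot P a) (iot P a') → T.Adj (iot P a) (iot P a') ∧
              ¬ (K.Adj (some v) (iot P a) ∧ K.Adj (some v) (iot P a')) ∧
              (K.Adj (some v) (iot P a) ∨ K.Adj (some v) (iot P a') →
                K.Adj (iot P a) (iot P a')) := fun h =>
            ⟨h, fun h' => hKv _ h'.1, fun h' => h'.elim (fun h' => absurd h' (hKv _))
              (fun h' => absurd h' (hKv _))⟩
          rcases h3 v hv a ha a' ha' haa' with hadj | ⟨haS, haS', hnr⟩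
          · left
            exact hadjcase ⟨hne, Or.inl ⟨a, a', hadj, rfl, rfl⟩⟩
          · rcases haS with haB | haP
            · rcases haS' with haB' | haP'
              · right; left
                rw [hιB a haB, hιB a' haB']
                refine ⟨none, hKB a haB, hKB a' haB', ?_⟩
                rcases hcomp ⟨a, haB⟩ ⟨a', haB'⟩ (hnr haB haB') with h | h
                · refine ⟨_, Or.inl ⟨htree' a' haB', ?_⟩⟩
                  rw [hRB a haB, hRB _ (root ⟨a', haB'⟩).2]
                  have h5 : (⟨((root ⟨a', haB'⟩ : B) : V), (root ⟨a', haB'⟩).2⟩ : B) =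
                    root ⟨a', haB'⟩ := rfl
                  rw [h5]
                  omega
                · refine ⟨_, Or.inr ⟨htree' a haB, ?_⟩⟩
                  rw [hRB a' haB', hRB _ (root ⟨a, haB⟩).2]
                  have h5 : (⟨((root ⟨a, haB⟩ : B) : V), (root ⟨a, haB⟩).2⟩ : B) =
                    root ⟨a, haB⟩ := rfl
                  rw [h5]
                  omega
              · left
                refine hadjcase ?_
                rw [hιB a haB, iot_of_mem haP']
                exact apexK_le G B P (hKB a haB)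
            · rcases haS' with haB' | haP'
              · left
                refine hadjcase ?_
                rw [hιB a' haB', iot_of_mem haP]
                exact (apexK_le G B P (hKB a' haB')).symm
              · exact absurd (hP haP haP') haa'
  · intro a b hab
    exact ⟨fun h => hab.ne (hιinj h), Or.inl ⟨a, b, hab, rfl, rfl⟩⟩

end Pool.Agent.Helper44.Rsl
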