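import Pool.Agent.Helper44.Rsl.MainF
import Pool.Agent.Helper44.Rsl.Forest
import Pool.Agent.Helper14.Rsl.Main

/-! # The class of all subgraphs of the graphs built with black trees -/

set_option autoImplicit false

namespace Pool.Agent.Helper44.Rsl
open Pool.Agent.Helper14.Rsl Pool.Agent.Helper6.Rsl

/-- `G` is a subgraph of a finite graph `T` of the class `BuildF` whose initial graph `T[A]`
satisfies `ex (n, T[A]) = O (n^(3/2))`. -/
def InClass {V : Type} (G : SimpleGraph V) : Prop :=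
  ∃ (W : Type) (_ : Fintype W) (T K : SimpleGraph W) (r : W → ℕ) (A : Set W) (e : V → W),
    BuildF T K r A ∧ ExThreeHalves (T.induce A) ∧ Function.Injective e ∧
      ∀ a b, G.Adj a b → T.Adj (e a) (e b)

theorem InClass.rsl {V : Type} {G : SimpleGraph V} (h : InClass G) : RSL G := by
  obtain ⟨W, hW, T, K, r, A, e, hB, hA, he, hG⟩ := h
  exact (mainF T K r A hB hA).mono e he hG

theorem inClass_of_empty {V W : Type} [Fintype W] {G : SimpleGraph V} {T K : SimpleGraph W}
    {r : W → ℕ} {e : V → W} (hB : BuildF T K r ∅) (he : Function.Injective e)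
    (hG : ∀ a b, G.Adj a b → T.Adj (e a) (e b)) : InClass G := by
  have h0 : IsEmpty (∅ : Set W) := Set.isEmpty_coe_sort.2 rfl
  exact ⟨W, inferInstance, T, K, r, ∅, e, hB, exThreeHalves_of_isEmpty _, he, hG⟩

theorem inClass_of_le {V : Type} {G : SimpleGraph V} (G' : SimpleGraph V)
    (h : ∀ a b, G.Adj a b → G'.Adj a b) (hG' : InClass G') : InClass G := by
  obtain ⟨W, hW, T, K, r, A, e, hB, hA, he, hG⟩ := hG'
  exact ⟨W, hW, T, K, r, A, e, hB, hA, he, fun a b hab => hG a b (h a b hab)⟩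

/-- The earlier neighbours of `v`: those in `S` and those of smaller rank. -/
def earlier {V : Type} (G : SimpleGraph V) (S : Set V) (r : V → ℕ) (v : V) : Set V :=
  {w : V | G.Adj v w ∧ (w ∈ S ∨ r w < r v)}

theorem inClass_of_forest {V : Type} [Fintype V] (G : SimpleGraph V) (B P : Set V) (r : V → ℕ)
    (hr : Function.Injective r) (hP : P.Subsingleton) (hBP : Disjoint B P)
    (hacy : (G.induce B).IsAcyclic)
    (h2 : ∀ v ∉ B ∪ P, (earlier G (B ∪ P) r v).encard ≤ 2)
    (h3 : ∀ v ∉ B ∪ P, ∀ x ∈ earlier G (B ∪ P) r v, ∀ x' ∈ earlier G (B ∪ P) r v, x ≠ x' →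
      G.Adj x x' ∨ (x ∈ B ∪ P ∧ x' ∈ B ∪ P ∧
        ∀ (hx : x ∈ B) (hx' : x' ∈ B), ¬ (G.induce B).Reachable ⟨x, hx⟩ ⟨x', hx'⟩)) :
    InClass G := by
  classical
  obtain ⟨M, hM⟩ : ∃ M, ∀ v, r v < M :=
    ⟨Finset.univ.sup r + 1, fun b => Nat.lt_succ_of_le (Finset.le_sup (Finset.mem_univ b))⟩
  set r' : V → ℕ := fun v => if v ∈ B ∪ P then r v else M + r v with hr'
  have hrB : ∀ v, v ∈ B ∪ P → r' v = r v := fun v hv => if_pos hv
  have hrO : ∀ v, v ∉ B ∪ P → r' v = M + r v := fun v hv => if_neg hv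
  have hrinj : Function.Injective r' := by
    intro a b hab
    have ha := hM a
    have hb := hM b
    by_cases h1 : a ∈ B ∪ P
    · by_cases h4 : b ∈ B ∪ P
      · rw [hrB a h1, hrB b h4] at hab
        exact hr hab
      · rw [hrB a h1, hrO b h4] at hab
        omega
    · by_cases h4 : b ∈ B ∪ P
      · rw [hrO a h1, hrB b h4] at hab
        omega
      · rw [hrO a h1, hrO b h4] at hab
        exact hr (by omega)
  have hsub : ∀ v, v ∉ B ∪ P → back G r' v ⊆ earlier G (B ∪ P) r v := by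
    rintro v hv w ⟨hvw, hlt⟩
    refine ⟨hvw, ?_⟩
    by_cases hw : w ∈ B ∪ P
    · exact Or.inl hw
    · rw [hrO v hv, hrO w hw] at hlt
      exact Or.inr (by omega)
  obtain ⟨T, K, R, e, hB, he, hG⟩ := exists_buildF G B P r' hrinj hP
    (fun p hp hpB => Set.disjoint_left.1 hBP hpB hp) hacy
    (fun a ha v hv => by
      rw [hrB a ha, hrO v hv]
      have := hM a
      omega)
    (fun v hv => (Set.encard_le_encard (hsub v hv)).trans (h2 v hv))
    (fun v hv x hx x' hx' hne => h3 v hv x (hsub v hv hx) x' (hsub v hv hx') hne)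
  exact inClass_of_empty hB he hG

end Pool.Agent.Helper44.Rsl
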