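import Pool.Agent.Helper44.Rsl.Forest

/-! # Graphs in which each cycle contains three consecutive vertices of degree two -/

set_option autoImplicit false
open Classical

namespace Pool.Agent.Helper44.Rsl
open Pool.Agent.Helper14.Rsl (back)

variable {V : Type}

/-- all neighbours of a vertex of degree two on a cycle lie on the cycle -/
theorem mem_support_of_adj {G : SimpleGraph V} {u : V} (c : G.Walk u u) (hc : c.IsCycle) (z : V)
    (hz : z ∈ c.support) (hd : (G.neighborSet z).encard = 2) (y : V) (hy : G.Adj z y) :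
    y ∈ c.support := by
  have h1 := hc.ncard_neighborSet_toSubgraph_eq_two hz
  have h2 : c.toSubgraph.neighborSet z ⊆ G.neighborSet z := c.toSubgraph.neighborSet_subset z
  have hfin : (G.neighborSet z).Finite := Set.finite_of_encard_eq_coe (k := 2) hd
  have h3 : (G.neighborSet z).ncard = 2 := by
    rw [Set.ncard_def, hd]; rfl
  have h4 := Set.eq_of_subset_of_ncard_le h2 (by rw [h1, h3]) hfin
  have h5 : y ∈ c.toSubgraph.neighborSet z := by rw [h4]; exact hy
  have h6 := c.toSubgraph.edge_vert h5.symm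
  rwa [SimpleGraph.Walk.mem_verts_toSubgraph] at h6

/-- `x` is the middle one of three consecutive vertices of degree two -/
def Mid (G : SimpleGraph V) (x : V) : Prop :=
  (G.neighborSet x).encard = 2 ∧ ∀ y, G.Adj x y → (G.neighborSet y).encard = 2

/-- no edge joins the closed neighbourhoods, which are disjoint -/
def Far (G : SimpleGraph V) (v x : V) : Prop :=
  ¬ G.Adj v x ∧ (∀ a, G.Adj v a → ¬ G.Adj x a) ∧ ∀ a b, G.Adj v a → G.Adj x b → ¬ G.Adj a b

theorem Far.symm {G : SimpleGraph V} {v x : V} (h : Far G v x) : Far G x v :=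
  ⟨fun h1 => h.1 h1.symm, fun a h1 h2 => h.2.1 a h2 h1, fun a b h1 h2 h3 => h.2.2 b a h2 h1 h3.symm⟩

theorem exists_maximal_far [Fintype V] (G : SimpleGraph V) (p : V) : ∃ S : Finset V,
    (∀ v ∈ S, Mid G v ∧ v ≠ p ∧ ¬ G.Adj v p) ∧
    (∀ v ∈ S, ∀ w ∈ S, v ≠ w → Far G v w) ∧
    ∀ x, Mid G x → x ≠ p → ¬ G.Adj x p → x ∉ S → ∃ v ∈ S, ¬ Far G v x := by
  set F : Finset (Finset V) := Finset.univ.filter (fun S : Finset V =>
    (∀ v ∈ S, Mid G v ∧ v ≠ p ∧ ¬ G.Adj v p) ∧ ∀ v ∈ S, ∀ w ∈ S, v ≠ w → Far G v w) with hF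
  have hne : F.Nonempty := ⟨∅, by simp [hF]⟩
  obtain ⟨S, hS, hmax⟩ := Finset.exists_max_image F Finset.card hne
  have hS' := (Finset.mem_filter.1 hS).2
  refine ⟨S, hS'.1, hS'.2, ?_⟩
  intro x hx hxp hxp' hxS
  by_contra hcon
  push Not at hcon
  have h1 : insert x S ∈ F := by
    refine Finset.mem_filter.2 ⟨Finset.mem_univ _, ?_, ?_⟩
    · intro v hv
      rcases Finset.mem_insert.1 hv with rfl | hv
      · exact ⟨hx, hxp, hxp'⟩
      · exact hS'.1 v hv
    · intro v hv w hw hne
      rcases Finset.mem_insert.1 hv with hv1 | hv1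
      · rcases Finset.mem_insert.1 hw with hw1 | hw1
        · exact absurd (hv1.trans hw1.symm) hne
        · rw [hv1]
          exact (hcon w hw1).symm
      · rcases Finset.mem_insert.1 hw with hw1 | hw1
        · rw [hw1]
          exact hcon v hv1
        · exact hS'.2 v hv1 w hw1 hne
  have h2 := hmax _ h1
  rw [Finset.card_insert_of_notMem hxS] at h2
  omega

/-- A graph with a vertex `p` such that each cycle avoiding `p` contains three consecutive vertices
of degree two is contained in a graph of the class `BuildF`. -/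
theorem exists_buildF_of_cycles [Fintype V] (G : SimpleGraph V) (p : V)
    (hG : ∀ (u : V) (c : G.Walk u u), c.IsCycle → p ∉ c.support → ∃ x ∈ c.support, Mid G x) :
    ∃ (T K : SimpleGraph (Option V)) (R : Option V → ℕ) (e : V → Option V), BuildF T K R ∅ ∧
      Function.Injective e ∧ ∀ a b, G.Adj a b → T.Adj (e a) (e b) := by
  obtain ⟨S, hmid, hfar, hmax⟩ := exists_maximal_far G p
  set B : Set V := {x | x ≠ p ∧ ∀ v ∈ S, ¬ G.Adj v x} with hB
  have hSB : ∀ v ∈ S, v ∈ B := by
    intro v hv
    refine ⟨(hmid v hv).2.1, fun w hw h => ?_⟩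
    exact (hfar w hw v hv h.ne).1 h
  have hpB : p ∉ B := fun h => h.1 rfl
  obtain ⟨n, ⟨e⟩⟩ := Finite.exists_equiv_fin V
  set r : V → ℕ := fun v => if v ∈ B ∪ {p} then (e v : ℕ) else n + e v with hr
  have hrB : ∀ v, v ∈ B ∪ {p} → r v = e v := fun v hv => if_pos hv
  have hrO : ∀ v, v ∉ B ∪ {p} → r v = n + e v := fun v hv => if_neg hv
  have hrinj : Function.Injective r := by
    intro a b hab
    have ha := (e a).2
    have hb := (e b).2
    by_cases h1 : a ∈ B ∪ {p}
    · by_cases h2 : b ∈ B ∪ {p}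
      · rw [hrB a h1, hrB b h2] at hab
        exact e.injective (Fin.ext hab)
      · rw [hrB a h1, hrO b h2] at hab
        omega
    · by_cases h2 : b ∈ B ∪ {p}
      · rw [hrO a h1, hrB b h2] at hab
        omega
      · rw [hrO a h1, hrO b h2] at hab
        exact e.injective (Fin.ext (by omega))
  have hout : ∀ w, w ∉ B ∪ {p} → ∃ v ∈ S, G.Adj v w := by
    intro w hw
    by_contra hcon
    push Not at hcon
    exact hw (Or.inl ⟨fun h => hw (Or.inr h), hcon⟩)
  refine exists_buildF G B {p} r hrinj Set.subsingleton_singleton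
    (fun q hq => by rw [Set.mem_singleton_iff.1 hq]; exact hpB) ?_ ?_ ?_ ?_
  · -- the induced graph is a forest
    intro u c hc
    set φ : G.induce B →g G := (SimpleGraph.Embedding.induce B).toHom with hφ
    have hc' : (c.map φ).IsCycle := hc.map Subtype.val_injective
    have hsupp : ∀ z ∈ (c.map φ).support, z ∈ B := by
      intro z hz
      rw [SimpleGraph.Walk.support_map, List.mem_map] at hz
      obtain ⟨a, _, rfl⟩ := hz
      exact a.2
    obtain ⟨x, hx, hxm⟩ := hG _ _ hc' (fun h => hpB (hsupp p h))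
    have hxB := hsupp x hx
    have hxN : ∀ y, G.Adj x y → y ∈ (c.map φ).support := fun y hy =>
      mem_support_of_adj _ hc' x hx hxm.1 y hy
    by_cases hxS : x ∈ S
    · have h1 : (G.neighborSet x).Nonempty := by
        rw [← Set.encard_pos, hxm.1]
        norm_num
      obtain ⟨y, hy⟩ := h1
      exact (hsupp y (hxN y hy)).2 x hxS hy
    · obtain ⟨v, hv, hnf⟩ := hmax x hxm hxB.1 (fun h => hpB (hsupp p (hxN p h))) hxS
      apply hnf
      refine ⟨fun h => hxB.2 v hv h, fun a ha hxa => (hsupp a (hxN a hxa)).2 v hv ha, ?_⟩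
      intro a b ha hxb hab
      have h1 : a ∈ (c.map φ).support :=
        mem_support_of_adj _ hc' b (hxN b hxb) (hxm.2 b hxb) a hab.symm
      exact (hsupp a h1).2 v hv ha
  · intro a ha v hv
    have := (e a).2
    rw [hrB a ha, hrO v hv]
    omega
  · intro w hw
    obtain ⟨v, hv, hvw⟩ := hout w hw
    refine (Set.encard_le_encard (fun z hz => hz.1)).trans ((hmid v hv).1.2 w hvw).le
  · intro w hw x hx x' hx' hne
    obtain ⟨v, hv, hvw⟩ := hout w hw
    have hdw : (G.neighborSet w).encard = 2 := (hmid v hv).1.2 w hvw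
    have hvB := hSB v hv
    -- one of the two neighbours is `v`
    have hor : v = x ∨ v = x' := by
      by_contra hcon
      push Not at hcon
      have h3 : ({v, x, x'} : Set V) ⊆ G.neighborSet w := by
        intro y hy
        simp only [Set.mem_insert_iff, Set.mem_singleton_iff] at hy
        rcases hy with rfl | rfl | rfl
        · exact hvw.symm
        · exact hx.1
        · exact hx'.1
      have h4 := (Set.encard_le_encard h3).trans hdw.le
      rw [Set.encard_insert_of_notMem (by simp [hcon.1, hcon.2]), Set.encard_pair hne] at h4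
      norm_num at h4
    have hiso : ∀ (hv1 : v ∈ B) (y : V) (hy : y ∈ B), v ≠ y →
        ¬ (G.induce B).Reachable ⟨v, hv1⟩ ⟨y, hy⟩ := by
      rintro hv1 y hy hvy ⟨q⟩
      have hnil : ¬ q.Nil := SimpleGraph.Walk.not_nil_of_ne (fun h => hvy (Subtype.mk.inj h))
      have hadj := q.adj_snd hnil
      have hadj' : G.Adj v (q.snd : V) := by simpa using hadj
      exact q.snd.2.2 v hv hadj'
    have key : ∀ y, G.Adj w y → v ≠ y → G.Adj v y ∨ y ∈ B ∪ {p} := by
      intro y hwy hvy
      by_cases hyB : y ∈ B ∪ {p}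
      · exact Or.inr hyB
      · obtain ⟨v', hv', hvy'⟩ := hout y hyB
        by_cases hvv' : v = v'
        · rw [hvv']; exact Or.inl hvy'
        · exact absurd hwy ((hfar v hv v' hv' hvv').2.2 w y hvw hvy')
    rcases hor with rfl | rfl
    · rcases key x' hx'.1 hne with h | h
      · exact Or.inl h
      · exact Or.inr ⟨Or.inl hvB, h, fun h1 h2 => hiso h1 x' h2 hne⟩
    · rcases key x hx.1 hne.symm with h | h
      · exact Or.inl h.symm
      · exact Or.inr ⟨h, Or.inl hvB, fun h1 h2 h3 => hiso h2 x h1 hne.symm h3.symm⟩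

end Pool.Agent.Helper44.Rsl
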