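import Pool.Agent.Helper6.Rsl.DefsK

/-! # The class of graphs with black edges and black trees (MP_21639e_co) -/

set_option autoImplicit false

namespace Pool.Agent.Helper44.Rsl
open Pool.Agent.Helper14.Rsl (back)
open Pool.Agent.Helper6.Rsl (BuildK)

variable {V : Type}

/-- `InTree T K r A y v z`: the vertex `v` belongs to the tree with root `z` in the neighbourhood of
`y`. The root `z` has `y` as its only earlier neighbour, and `z y` is black; every other vertex of
the tree has exactly two earlier neighbours, namely `y`, joined to it by a black edge, and a vertex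
of the tree, joined to it by an edge which is not black. -/
inductive InTree (T K : SimpleGraph V) (r : V → ℕ) (A : Set V) (y : V) : V → V → Prop
  | root (z : V) (hA : z ∉ A) (hb : back T r z = {y}) (hk : K.Adj z y) : InTree T K r A y z z
  | step (v u z : V) (hA : v ∉ A) (hb : back T r v = {y, u}) (hu : u ≠ y) (hk : K.Adj v y)
      (hn : ¬ K.Adj v u) (ht : InTree T K r A y u z) : InTree T K r A y v z

/-- `T` is built from its induced subgraph on `A` by adding vertices one by one, in the order of
the ranks; the edges of `K ≤ T` are *black*. Every new vertex `v` has at most two earlier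
neighbours. If it has two earlier neighbours `x` and `x'`, then
* either `x` and `x'` are adjacent, at most one of the edges `v x`, `v x'` is black, and one of them
  is black only if the edge `x x'` is black;
* or `x` and `x'` have a common black neighbour `y` such that one of `x`, `x'` lies in a tree in
  the neighbourhood of `y` whose root comes later than the other one;
* or `x` and `x'` have two common black neighbours `y` and `y'` such that `y'` lies in a tree in the
  neighbourhood of `x` or in a tree in the neighbourhood of `x'`, whose root comes later than `y`. -/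
structure BuildF (T K : SimpleGraph V) (r : V → ℕ) (A : Set V) : Prop where
  inj : Function.Injective r
  first : ∀ a ∈ A, ∀ v ∉ A, r a < r v
  le : K ≤ T
  two : ∀ v ∉ A, (back T r v).encard ≤ 2
  rule : ∀ v ∉ A, ∀ x ∈ back T r v, ∀ x' ∈ back T r v, x ≠ x' →
    (T.Adj x x' ∧ ¬ (K.Adj v x ∧ K.Adj v x') ∧ (K.Adj v x ∨ K.Adj v x' → K.Adj x x')) ∨
    (∃ y, K.Adj x y ∧ K.Adj x' y ∧
      ∃ z, (InTree T K r A y x' z ∧ r x < r z) ∨ (InTree T K r A y x z ∧ r x' < r z)) ∨
    ∃ y y', K.Adj x y ∧ K.Adj x' y ∧ K.Adj x y' ∧ K.Adj x' y' ∧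
      ∃ z, r y < r z ∧ (InTree T K r A x y' z ∨ InTree T K r A x' y' z)

theorem InTree.root_le {T K : SimpleGraph V} {r : V → ℕ} {A : Set V} {y v z : V}
    (h : InTree T K r A y v z) : r z ≤ r v := by
  induction h with
  | root z _ _ _ => exact le_rfl
  | step v u z _ hb _ _ _ _ ih =>
    have h1 : u ∈ back T r v := by rw [hb]; exact Or.inr rfl
    exact ih.trans h1.2.le

theorem InTree.notMem {T K : SimpleGraph V} {r : V → ℕ} {A : Set V} {y v z : V}
    (h : InTree T K r A y v z) : v ∉ A := by
  cases h with
  | root _ hA _ _ => exact hA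
  | step _ _ _ hA _ _ _ _ _ => exact hA

theorem InTree.black {T K : SimpleGraph V} {r : V → ℕ} {A : Set V} {y v z : V}
    (h : InTree T K r A y v z) : K.Adj v y := by
  cases h with
  | root _ _ _ hk => exact hk
  | step _ _ _ _ _ _ hk _ _ => exact hk

theorem InTree.mem_back {T K : SimpleGraph V} {r : V → ℕ} {A : Set V} {y v z : V}
    (h : InTree T K r A y v z) : y ∈ back T r v := by
  cases h with
  | root _ _ hb _ => rw [hb]; rfl
  | step _ _ _ _ hb _ _ _ _ => rw [hb]; exact Or.inl rfl

theorem InTree.isRoot {T K : SimpleGraph V} {r : V → ℕ} {A : Set V} {y v z : V}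
    (h : InTree T K r A y v z) : z ∉ A ∧ back T r z = {y} ∧ K.Adj z y := by
  induction h with
  | root z hA hb hk => exact ⟨hA, hb, hk⟩
  | step _ _ _ _ _ _ _ _ _ ih => exact ih

/-- the root is unique -/
theorem InTree.root_unique {T K : SimpleGraph V} {r : V → ℕ} {A : Set V} {y v z : V}
    (h : InTree T K r A y v z) : ∀ z', InTree T K r A y v z' → z = z' := by
  induction h with
  | root z hA hb hk =>
    intro z' h'
    cases h' with
    | root _ _ _ _ => rfl
    | step _ u _ _ hb' hu _ _ _ =>
      exfalso
      rw [hb] at hb'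
      have h1 : u ∈ ({y} : Set V) := by rw [hb']; exact Or.inr rfl
      exact hu h1
  | step v u z hA hb hu hk hn ht ih =>
    intro z' h'
    cases h' with
    | root _ _ hb' _ =>
      exfalso
      rw [hb'] at hb
      have h1 : u ∈ ({y} : Set V) := by rw [hb]; exact Or.inr rfl
      exact hu h1
    | step _ u' _ _ hb' hu' _ _ ht' =>
      have h1 : u' ∈ ({y, u} : Set V) := by rw [← hb, hb']; exact Or.inr rfl
      rcases h1 with h1 | h1
      · exact absurd h1 hu'
      · have h2 : u' = u := h1
        subst h2
        exact ih z' ht'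

/-- The class with black trees contains the class with black edges. -/
theorem ofBuildK {T K : SimpleGraph V} {r : V → ℕ} {A : Set V} (h : BuildK T K r A) :
    BuildF T K r A := by
  refine ⟨h.inj, h.first, h.le, h.two, ?_⟩
  intro v hv x hx x' hx' hne
  rcases h.rule v hv x hx x' hx' hne with h1 | ⟨y, k1, k2, h1⟩ | ⟨y, y', k1, k2, k3, k4, hr, hA, hb⟩
  · exact Or.inl h1
  · refine Or.inr (Or.inl ⟨y, k1, k2, ?_⟩)
    rcases h1 with ⟨hr, hA, hb⟩ | ⟨hr, hA, hb⟩
    · exact ⟨x', Or.inl ⟨InTree.root x' hA hb k2, hr⟩⟩
    · exact ⟨x, Or.inr ⟨InTree.root x hA hb k1, hr⟩⟩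
  · refine Or.inr (Or.inr ⟨y, y', k1, k2, k3, k4, y', hr, ?_⟩)
    rcases hb with hb | hb
    · exact Or.inl (InTree.root y' hA hb k3.symm)
    · exact Or.inr (InTree.root y' hA hb k4.symm)

end Pool.Agent.Helper44.Rsl
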