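import Pool.Agent.Helper44.Rsl.Hit
import Pool.Agent.Helper44.Rsl.Cycle

/-! # Cycles with two non-adjacent vertices of degree two or at most two vertices of larger degree -/

set_option autoImplicit false
open Classical

namespace Pool.Agent.Helper44.Rsl
open Pool.Agent.Helper14.Rsl (back)

variable {V : Type}

/-- the vertex `v` has degree two -/
def Two (G : SimpleGraph V) (v : V) : Prop := (G.neighborSet v).encard = 2

theorem Two.cases {G : SimpleGraph V} {v a b : V} (h : Two G v) (hab : a ≠ b) (ha : G.Adj v a)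
    (hb : G.Adj v b) : ∀ x, G.Adj v x → x = a ∨ x = b := by
  intro x hx
  by_contra hcon
  push Not at hcon
  have h3 : ({x, a, b} : Set V) ⊆ G.neighborSet v := by
    intro y hy
    simp only [Set.mem_insert_iff, Set.mem_singleton_iff] at hy
    rcases hy with rfl | rfl | rfl
    · exact hx
    · exact ha
    · exact hb
  have h4 := (Set.encard_le_encard h3).trans (le_of_eq h)
  rw [Set.encard_insert_of_notMem (by simp [hcon.1, hcon.2]), Set.encard_pair hab] at h4
  norm_num at h4

/-- a 4-cycle `b' w w' b` avoiding `p` in which exactly `w` and `w'` have degree two -/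
structure Ear (G : SimpleGraph V) (p w w' b' b : V) : Prop where
  h1 : G.Adj w b'
  h2 : G.Adj w w'
  h3 : G.Adj w' b
  h4 : G.Adj b' b
  h5 : Two G w
  h6 : Two G w'
  h7 : ¬ Two G b'
  h8 : ¬ Two G b
  h9 : w ≠ p
  h10 : w' ≠ p
  h11 : b' ≠ p
  h12 : b ≠ p

theorem Ear.symm {G : SimpleGraph V} {p w w' b' b : V} (h : Ear G p w w' b' b) :
    Ear G p w' w b b' :=
  ⟨h.h3, h.h2.symm, h.h1, h.h4.symm, h.h6, h.h5, h.h8, h.h7, h.h10, h.h9, h.h12, h.h11⟩

theorem Ear.nbr {G : SimpleGraph V} {p w w' b' b : V} (h : Ear G p w w' b' b) :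
    ∀ x, G.Adj w x → x = b' ∨ x = w' :=
  h.h5.cases (fun h' => h.h7 (h' ▸ h.h6)) h.h1 h.h2

theorem Ear.unique {G : SimpleGraph V} {p w w' b' b x' c' c : V} (h : Ear G p w w' b' b)
    (h' : Ear G p w x' c' c) : x' = w' ∧ c' = b' ∧ c = b := by
  have e1 : x' = w' := by
    rcases h.nbr x' h'.h2 with e | e
    · exact absurd (e ▸ h'.h6) h.h7
    · exact e
  subst e1
  refine ⟨rfl, ?_, ?_⟩
  · rcases h.nbr c' h'.h1 with e | e
    · exact e
    · exact absurd (e ▸ h.h6) h'.h7
  · rcases h.symm.nbr c h'.h3 with e | e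
    · exact e
    · exact absurd (e ▸ h.h5) h'.h8

/-- the vertices of degree two on such 4-cycles -/
def EW (G : SimpleGraph V) (p w : V) : Prop := ∃ w' b' b, Ear G p w w' b' b

/-- the added edges -/
def NewE (G : SimpleGraph V) (p : V) (r : V → ℕ) (w b : V) : Prop :=
  ∃ w' b', Ear G p w w' b' b ∧ r w < r w'

/-- the graph with the added edges -/
def plus (G : SimpleGraph V) (p : V) (r : V → ℕ) : SimpleGraph V where
  Adj x y := G.Adj x y ∨ NewE G p r x y ∨ NewE G p r y x
  symm := ⟨fun _ _ h => h.elim (fun h => Or.inl h.symm) fun h => Or.inr h.symm⟩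
  loopless := ⟨fun x h => by
    rcases h with h | ⟨w', b', h, _⟩ | ⟨w', b', h, _⟩
    · exact G.loopless.irrefl x h
    · exact h.h8 h.h5
    · exact h.h8 h.h5⟩

/-- three different vertices on a cycle -/
theorem exists_third {G : SimpleGraph V} {u : V} (c : G.Walk u u) (hc : c.IsCycle) (x y : V) :
    ∃ v ∈ c.support, v ≠ x ∧ v ≠ y := by
  by_contra hcon
  push Not at hcon
  have h1 := hc.three_le_length
  have h2 := hc.support_nodup
  have h3 : c.support.tail.length = c.length := by
    rw [List.length_tail, SimpleGraph.Walk.length_support]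
    omega
  have h4 : c.support.tail.toFinset ⊆ {x, y} := by
    intro v hv
    have hv' : v ∈ c.support := List.mem_of_mem_tail (List.mem_toFinset.1 hv)
    by_cases hvx : v = x
    · rw [hvx]; exact Finset.mem_insert_self _ _
    · have := hcon v hv' hvx
      rw [this]
      exact Finset.mem_insert_of_mem (Finset.mem_singleton_self _)
  have h5 := Finset.card_le_card h4
  rw [List.toFinset_card_of_nodup h2, h3] at h5
  have h6 := Finset.card_le_two (a := x) (b := y)
  omega

/-- The hypothesis on the cycles. -/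
def CycCond (G : SimpleGraph V) (p : V) : Prop :=
  ∀ (u : V) (c : G.Walk u u), c.IsCycle → p ∉ c.support →
    (∃ a ∈ c.support, ∃ b ∈ c.support, a ≠ b ∧ ¬ G.Adj a b ∧ Two G a ∧ Two G b) ∨
    (∃ x y, ∀ v ∈ c.support, ¬ Two G v → v = x ∨ v = y)

/-- a maximum independent set of vertices of degree two outside the exceptional 4-cycles -/
theorem exists_max_indep [Fintype V] (G : SimpleGraph V) (p : V) : ∃ S : Finset V,
    (∀ v ∈ S, Two G v ∧ v ≠ p ∧ ¬ EW G p v) ∧ (∀ v ∈ S, ∀ w ∈ S, ¬ G.Adj v w) ∧
    ∀ (u : V) (c : G.Walk u u), c.IsCycle → p ∉ c.support → ∀ I : Finset V,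
      (∀ v ∈ I, v ∈ c.support ∧ Two G v ∧ ¬ EW G p v) → (∀ v ∈ I, ∀ w ∈ I, ¬ G.Adj v w) →
      I.card ≤ (S.filter (fun v => v ∈ c.support)).card := by
  set F : Finset (Finset V) := Finset.univ.filter (fun S : Finset V =>
    (∀ v ∈ S, Two G v ∧ v ≠ p ∧ ¬ EW G p v) ∧ ∀ v ∈ S, ∀ w ∈ S, ¬ G.Adj v w) with hF
  have hne : F.Nonempty := ⟨∅, by simp [hF]⟩
  obtain ⟨S, hS, hmax⟩ := Finset.exists_max_image F Finset.card hne
  have hS' := (Finset.mem_filter.1 hS).2
  refine ⟨S, hS'.1, hS'.2, ?_⟩
  intro u c hc hp I hI hind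
  set S1 := S.filter (fun v => v ∈ c.support) with hS1
  set S2 := S.filter (fun v => v ∉ c.support) with hS2
  have hdisj : Disjoint S2 I := by
    rw [Finset.disjoint_left]
    intro v hv hvI
    exact (Finset.mem_filter.1 hv).2 (hI v hvI).1
  have hmem : S2 ∪ I ∈ F := by
    refine Finset.mem_filter.2 ⟨Finset.mem_univ _, ?_, ?_⟩
    · intro v hv
      rcases Finset.mem_union.1 hv with hv | hv
      · exact hS'.1 v (Finset.mem_filter.1 hv).1
      · refine ⟨(hI v hv).2.1, ?_, (hI v hv).2.2⟩
        rintro rfl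
        exact hp (hI v hv).1
    · have hcross : ∀ v ∈ S2, ∀ w ∈ I, ¬ G.Adj w v := by
        intro v hv w hw h
        exact (Finset.mem_filter.1 hv).2
          (mem_support_of_adj c hc w (hI w hw).1 (hI w hw).2.1 v h)
      intro v hv w hw
      rcases Finset.mem_union.1 hv with hv | hv
      · rcases Finset.mem_union.1 hw with hw | hw
        · exact hS'.2 v (Finset.mem_filter.1 hv).1 w (Finset.mem_filter.1 hw).1
        · exact fun h => hcross v hv w hw h.symm
      · rcases Finset.mem_union.1 hw with hw | hw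
        · exact hcross w hw v hv
        · exact hind v hv w hw
  have h1 := hmax _ hmem
  rw [Finset.card_union_of_disjoint hdisj] at h1
  have h2 : S1.card + S2.card = S.card := Finset.card_filter_add_card_filter_not _
  omega

end Pool.Agent.Helper44.Rsl
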