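import Pool.Agent.Helper44.Rsl.Ear
import Pool.Agent.Helper44.Rsl.Class

/-! # The theorem on cycles -/

set_option autoImplicit false
open Classical

namespace Pool.Agent.Helper44.Rsl

variable {V : Type}

theorem encard_pair_le' {α : Type} (a b : α) : ({a, b} : Set α).encard ≤ 2 := by
  refine (Set.encard_insert_le _ _).trans ?_
  rw [Set.encard_singleton]
  exact le_of_eq one_add_one_eq_two

/-- A graph `G` with a vertex `p` such that each cycle avoiding `p` contains two non-adjacent
vertices of degree two or at most two vertices of degree other than two belongs to the class. -/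
theorem inClass_of_cycCond [Fintype V] (G : SimpleGraph V) (p : V) (hG : CycCond G p) :
    InClass G := by
  obtain ⟨S, hS1, hS2, key⟩ := exists_max_indep G p
  obtain ⟨n, ⟨e⟩⟩ := Finite.exists_equiv_fin V
  set r : V → ℕ := fun v => (e v : ℕ) with hr
  have hrinj : Function.Injective r := fun a b h => e.injective (Fin.ext h)
  set G' := plus G p r with hG'
  set B : Set V := {v | v ≠ p ∧ v ∉ S ∧ ¬ EW G p v} with hB
  have hpB : p ∉ B := fun h => h.1 rfl
  -- neighbours in `G'`
  have hadjB : ∀ x y, x ∈ B → y ∈ B → (G'.Adj x y ↔ G.Adj x y) := by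
    intro x y hx hy
    constructor
    · rintro (h | ⟨w', b', h, _⟩ | ⟨w', b', h, _⟩)
      · exact h
      · exact absurd ⟨w', b', y, h⟩ hx.2.2
      · exact absurd ⟨w', b', x, h⟩ hy.2.2
    · exact Or.inl
  have hind : G'.induce B = G.induce B := by
    ext ⟨x, hx⟩ ⟨y, hy⟩
    exact hadjB x y hx hy
  have hadjS : ∀ v ∈ S, ∀ y, G'.Adj v y → G.Adj v y := by
    rintro v hv y (h | ⟨w', b', h, _⟩ | ⟨w', b', h, _⟩)
    · exact h
    · exact absurd ⟨w', b', y, h⟩ (hS1 v hv).2.2
    · exact absurd (hS1 v hv).1 h.h8
  -- a cycle of `G` avoiding `p` and the exceptional 4-cycles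
  have hhit : ∀ (u : V) (c : G.Walk u u), c.IsCycle → (∀ z ∈ c.support, z ∈ B) → False := by
    intro u c hc hcB
    have hp : p ∉ c.support := fun h => hpB (hcB p h)
    have hone : ∀ a ∈ c.support, Two G a → False := by
      intro a ha hta
      have h1 := key u c hc hp {a} (by
        intro v hv
        rw [Finset.mem_singleton.1 hv]
        exact ⟨ha, hta, (hcB a ha).2.2⟩) (by
        intro v hv w hw
        rw [Finset.mem_singleton.1 hv, Finset.mem_singleton.1 hw]
        exact G.loopless.irrefl _)
      rw [Finset.card_singleton] at h1
      obtain ⟨x, hx⟩ := Finset.card_pos.1 h1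
      rw [Finset.mem_filter] at hx
      exact (hcB x hx.2).2.1 hx.1
    rcases hG u c hc hp with ⟨a, ha, _, _, _, _, hta, _⟩ | ⟨x, y, hxy⟩
    · exact hone a ha hta
    · obtain ⟨v, hv, hvx, hvy⟩ := exists_third c hc x y
      by_cases hvt : Two G v
      · exact hone v hv hvt
      · rcases hxy v hv hvt with h | h
        · exact hvx h
        · exact hvy h
  have hout : ∀ v, v ∉ B ∪ {p} → v ∈ S ∨ EW G p v := by
    intro v hv
    by_contra hcon
    push Not at hcon
    exact hv (Or.inl ⟨fun h => hv (Or.inr h), hcon.1, hcon.2⟩)
  have hearB : ∀ w w' b' b, Ear G p w w' b' b → b' ∈ B ∧ b ∈ B := by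
    intro w w' b' b h
    refine ⟨⟨h.h11, fun hs => h.h7 (hS1 _ hs).1, ?_⟩, ⟨h.h12, fun hs => h.h8 (hS1 _ hs).1, ?_⟩⟩
    · rintro ⟨_, _, _, h'⟩
      exact h.h7 h'.h5
    · rintro ⟨_, _, _, h'⟩
      exact h.h8 h'.h5
  -- earlier neighbours of an exceptional vertex
  have hearE : ∀ w w' b' b, Ear G p w w' b' b → ∀ x ∈ earlier G' (B ∪ {p}) r w,
      (r w < r w' ∧ (x = b' ∨ x = b)) ∨ (r w' < r w ∧ (x = b' ∨ x = w')) := by
    rintro w w' b' b h x ⟨hadj, hx⟩
    have hrne : r w ≠ r w' := fun h' => h.h2.ne (hrinj h')
    have hw'B : w' ∉ B ∪ {p} := by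
      rintro (h' | h')
      · exact h'.2.2 ⟨w, b, b', h.symm⟩
      · exact h.h10 h'
    rcases hadj with hadj | ⟨x', c', h', hlt⟩ | ⟨x', c', h', _⟩
    · rcases h.nbr x hadj with rfl | rfl
      · rcases lt_or_gt_of_ne hrne with h1 | h1
        · exact Or.inl ⟨h1, Or.inl rfl⟩
        · exact Or.inr ⟨h1, Or.inl rfl⟩
      · have h1 : r x < r w := hx.resolve_left hw'B
        exact Or.inr ⟨h1, Or.inr rfl⟩
    · obtain ⟨e1, _, e3⟩ := h.unique h'
      rw [e1] at hlt
      exact Or.inl ⟨hlt, Or.inr e3⟩
    · exact absurd h.h5 h'.h8
  refine inClass_of_le G' (fun a b h => Or.inl h) (inClass_of_forest G' B {p} r hrinj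
    Set.subsingleton_singleton (Set.disjoint_singleton_right.2 hpB) ?_ ?_ ?_)
  · rw [hind]
    intro u c hc
    set φ : G.induce B →g G := (SimpleGraph.Embedding.induce B).toHom with hφ
    have hc' : (c.map φ).IsCycle := hc.map Subtype.val_injective
    refine hhit _ _ hc' ?_
    intro z hz
    rw [SimpleGraph.Walk.support_map, List.mem_map] at hz
    obtain ⟨a, _, rfl⟩ := hz
    exact a.2
  · intro v hv
    rcases hout v hv with hvS | ⟨w', b', b, h⟩
    · refine (Set.encard_le_encard ?_).trans (le_of_eq (hS1 v hvS).1)
      intro x hx
      exact hadjS v hvS x hx.1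
    · by_cases hlt : r v < r w'
      · refine (Set.encard_le_encard (t := ({b', b} : Set V)) ?_).trans (encard_pair_le' b' b)
        intro x hx
        rcases hearE v w' b' b h x hx with ⟨_, h1 | h1⟩ | ⟨h2, _⟩
        · exact Or.inl h1
        · exact Or.inr h1
        · omega
      · refine (Set.encard_le_encard (t := ({b', w'} : Set V)) ?_).trans
          (encard_pair_le' b' w')
        intro x hx
        rcases hearE v w' b' b h x hx with ⟨h2, _⟩ | ⟨_, h1 | h1⟩
        · exact absurd h2 hlt
        · exact Or.inl h1
        · exact Or.inr h1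
  · intro v hv x hx x' hx' hne
    rcases hout v hv with hvS | ⟨w', b', b, h⟩
    · -- a vertex of `S`
      have hvx := hadjS v hvS x hx.1
      have hvx' := hadjS v hvS x' hx'.1
      have hvt := (hS1 v hvS).1
      have hvp := (hS1 v hvS).2.1
      have hmem : ∀ y, G.Adj v y → y ∈ B ∪ {p} := by
        intro y hy
        by_contra hcon
        rcases hout y hcon with hyS | ⟨w', b', b, h⟩
        · exact hS2 v hvS y hyS hy
        · rcases h.nbr v hy.symm with rfl | rfl
          · exact h.h7 hvt
          · exact (hS1 v hvS).2.2 ⟨y, b, b', h.symm⟩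
      by_cases hadj : G.Adj x x'
      · exact Or.inl (Or.inl hadj)
      · refine Or.inr ⟨hmem x hvx, hmem x' hvx', ?_⟩
        rw [hind]
        rintro hxB hxB' hreach
        obtain ⟨q, hq⟩ := hreach.exists_isPath
        obtain ⟨q', hq', hsupp⟩ := exists_lift G B q hq
        have hvB : v ∉ B := fun h => h.2.1 hvS
        have hvq : v ∉ q'.support := fun h => hvB (hsupp v h)
        have h1 : G.Adj x' v := hvx'.symm
        have hp1 : (q'.concat h1).IsPath := hq'.concat hvq h1
        have hp2 : s(v, x) ∉ (q'.concat h1).edges := by
          rw [SimpleGraph.Walk.edges_concat, List.concat_eq_append, List.mem_append,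
            List.mem_singleton]
          rintro (h | h)
          · exact hvq (SimpleGraph.Walk.fst_mem_support_of_mem_edges _ h)
          · rw [Sym2.eq_iff] at h
            rcases h with ⟨h3, _⟩ | ⟨_, h3⟩
            · exact h1.ne h3.symm
            · exact hne h3
        set c : G.Walk v v := SimpleGraph.Walk.cons hvx (q'.concat h1) with hc
        have hcyc : c.IsCycle := SimpleGraph.Walk.cons_isCycle_iff _ hvx |>.2 ⟨hp1, hp2⟩
        have hs : ∀ z ∈ c.support, z = v ∨ z ∈ B := by
          intro z hz
          rw [hc, SimpleGraph.Walk.support_cons, SimpleGraph.Walk.support_concat, List.mem_cons,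
            List.mem_append, List.mem_singleton] at hz
          rcases hz with hz | hz | hz
          · exact Or.inl hz
          · exact Or.inr (hsupp z hz)
          · exact Or.inl hz
        have hqc : ∀ z ∈ q'.support, z ∈ c.support := by
          intro z hz
          rw [hc, SimpleGraph.Walk.support_cons, SimpleGraph.Walk.support_concat, List.mem_cons,
            List.mem_append]
          exact Or.inr (Or.inl hz)
        have hvc : v ∈ c.support := SimpleGraph.Walk.start_mem_support _
        have hpn : p ∉ c.support := by
          intro h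
          rcases hs p h with h | h
          · exact hvp h.symm
          · exact hpB h
        have hEWc : ∀ z ∈ c.support, ¬ EW G p z := by
          intro z hz
          rcases hs z hz with rfl | h
          · exact (hS1 z hvS).2.2
          · exact h.2.2
        -- no two non-adjacent vertices of degree two
        have htwo : ∀ a ∈ c.support, ∀ b ∈ c.support, a ≠ b → ¬ G.Adj a b → Two G a → Two G b →
            False := by
          intro a ha b hb hab hnadj hda hdb
          have h2 := key v c hcyc hpn {a, b} (by
            intro z hz
            rcases Finset.mem_insert.1 hz with rfl | hz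
            · exact ⟨ha, hda, hEWc z ha⟩
            · rw [Finset.mem_singleton.1 hz]
              exact ⟨hb, hdb, hEWc b hb⟩) (by
            intro z hz w hw
            rcases Finset.mem_insert.1 hz with hz | hz
            · rcases Finset.mem_insert.1 hw with hw | hw
              · rw [hz, hw]; exact G.loopless.irrefl _
              · rw [hz, Finset.mem_singleton.1 hw]; exact hnadj
            · rcases Finset.mem_insert.1 hw with hw | hw
              · rw [hw, Finset.mem_singleton.1 hz]; exact fun h => hnadj h.symm
              · rw [Finset.mem_singleton.1 hz, Finset.mem_singleton.1 hw]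
                exact G.loopless.irrefl _)
          rw [Finset.card_pair hab] at h2
          obtain ⟨a1, ha1, a2, ha2, h12⟩ := Finset.one_lt_card.1 (Nat.lt_of_succ_le h2)
          rw [Finset.mem_filter] at ha1 ha2
          have e1 : a1 = v := (hs a1 ha1.2).resolve_right (fun h => h.2.1 ha1.1)
          have e2 : a2 = v := (hs a2 ha2.2).resolve_right (fun h => h.2.1 ha2.1)
          exact h12 (e1.trans e2.symm)
        -- so at most two vertices of other degrees
        obtain ⟨x0, y0, hxy⟩ : ∃ x0 y0, ∀ z ∈ c.support, ¬ Two G z → z = x0 ∨ z = y0 := by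
          rcases hG v c hcyc hpn with ⟨a, ha, b, hb, hab, hnadj, hda, hdb⟩ | h
          · exact (htwo a ha b hb hab hnadj hda hdb).elim
          · exact h
        have hxc : x ∈ c.support := hqc x q'.start_mem_support
        have hxc' : x' ∈ c.support := hqc x' q'.end_mem_support
        have hvxne : v ≠ x := hvx.ne
        have hvxne' : v ≠ x' := hvx'.ne
        -- vertices of degree two on the path are `x` or `x'`
        have hdeg : ∀ z ∈ q'.support, Two G z → z = x ∨ z = x' := by
          intro z hz hdz
          by_contra hcon
          push Not at hcon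
          refine htwo v hvc z (hqc z hz) (fun h => hvq (h ▸ hz)) ?_ hvt hdz
          intro hvz
          rcases hvt.cases hne hvx hvx' z hvz with h | h
          · exact hcon.1 h
          · exact hcon.2 h
        have hnot : ¬ (Two G x ∧ Two G x') := fun h => htwo x hxc x' hxc' hne hadj h.1 h.2
        -- the path has length two
        have hlen1 : q'.length ≠ 1 := fun h => hadj (SimpleGraph.Walk.adj_of_length_eq_one h)
        have hlen0 : q'.length ≠ 0 := fun h => hne (SimpleGraph.Walk.eq_of_length_eq_zero h)
        have hcard : q'.support.toFinset.card = q'.length + 1 := by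
          rw [List.toFinset_card_of_nodup hq'.support_nodup, SimpleGraph.Walk.length_support]
        have hsub : ∃ a, (Two G x → a = x) ∧ (Two G x' → a = x') ∧
            q'.support.toFinset ⊆ {x0, y0, a} := by
          by_cases hx2 : Two G x
          · refine ⟨x, fun _ => rfl, fun h => absurd ⟨hx2, h⟩ hnot, ?_⟩
            intro z hz
            have hz' := List.mem_toFinset.1 hz
            simp only [Finset.mem_insert, Finset.mem_singleton]
            by_cases hdz : Two G z
            · rcases hdeg z hz' hdz with h | h
              · exact Or.inr (Or.inr h)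
              · exact absurd ⟨hx2, h ▸ hdz⟩ hnot
            · rcases hxy z (hqc z hz') hdz with h | h
              · exact Or.inl h
              · exact Or.inr (Or.inl h)
          · refine ⟨x', fun h => absurd h hx2, fun _ => rfl, ?_⟩
            intro z hz
            have hz' := List.mem_toFinset.1 hz
            simp only [Finset.mem_insert, Finset.mem_singleton]
            by_cases hdz : Two G z
            · rcases hdeg z hz' hdz with h | h
              · exact absurd (h ▸ hdz) hx2
              · exact Or.inr (Or.inr h)
            · rcases hxy z (hqc z hz') hdz with h | h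
              · exact Or.inl h
              · exact Or.inr (Or.inl h)
        obtain ⟨a, _, _, hsub⟩ := hsub
        have hc3 : q'.support.toFinset.card ≤ 3 :=
          (Finset.card_le_card hsub).trans Finset.card_le_three
        have hlen : q'.length = 2 := by omega
        -- the middle vertex
        obtain ⟨z, hxz, hzx', hzq⟩ : ∃ z, G.Adj x z ∧ G.Adj z x' ∧ z ∈ q'.support := by
          cases q' with
          | nil => simp at hlen
          | cons hadj1 q1 =>
            cases q1 with
            | nil => simp at hlen
            | cons hadj2 q2 =>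
              cases q2 with
              | nil => exact ⟨_, hadj1, hadj2, by simp⟩
              | cons _ _ => simp at hlen
        have hzne : z ≠ x := hxz.ne.symm
        have hzne' : z ≠ x' := hzx'.ne
        have hz2 : ¬ Two G z := by
          intro h
          rcases hdeg z hzq h with h | h
          · exact hzne h
          · exact hzne' h
        have hzB := hsupp z hzq
        -- one of `x`, `x'` has degree two
        have hone : Two G x ∨ Two G x' := by
          by_contra hcon
          push Not at hcon
          have e1 := hxy x hxc hcon.1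
          have e2 := hxy x' hxc' hcon.2
          have e3 := hxy z (hqc z hzq) hz2
          rcases e1 with e1 | e1 <;> rcases e2 with e2 | e2 <;> rcases e3 with e3 | e3
          · exact hne (e1.trans e2.symm)
          · exact hne (e1.trans e2.symm)
          · exact hzne (e3.trans e1.symm)
          · exact hzne' (e3.trans e2.symm)
          · exact hzne' (e3.trans e2.symm)
          · exact hzne (e3.trans e1.symm)
          · exact hne (e1.trans e2.symm)
          · exact hne (e1.trans e2.symm)
        rcases hone with hx2 | hx2
        · have hx2' : ¬ Two G x' := fun h => hnot ⟨hx2, h⟩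
          exact (hS1 v hvS).2.2 ⟨x, x', z, ⟨hvx', hvx, hxz, hzx'.symm, hvt, hx2, hx2', hz2, hvp,
            hxB.1, hxB'.1, hzB.1⟩⟩
        · have hx2' : ¬ Two G x := fun h => hnot ⟨h, hx2⟩
          exact (hS1 v hvS).2.2 ⟨x', x, z, ⟨hvx, hvx', hzx'.symm, hxz, hvt, hx2, hx2', hz2, hvp,
            hxB'.1, hxB.1, hzB.1⟩⟩
    · -- an exceptional vertex
      left
      rcases hearE v w' b' b h x hx with ⟨hlt, h1⟩ | ⟨hlt, h1⟩
      · rcases hearE v w' b' b h x' hx' with ⟨_, h2⟩ | ⟨hlt', _⟩
        · rcases h1 with h1 | h1 <;> rcases h2 with h2 | h2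
          · exact absurd (h1.trans h2.symm) hne
          · rw [h1, h2]; exact Or.inl h.h4
          · rw [h1, h2]; exact Or.inl h.h4.symm
          · exact absurd (h1.trans h2.symm) hne
        · omega
      · rcases hearE v w' b' b h x' hx' with ⟨hlt', _⟩ | ⟨_, h2⟩
        · omega
        · have hnew : G'.Adj w' b' := Or.inr (Or.inl ⟨v, b, h.symm, hlt⟩)
          rcases h1 with h1 | h1 <;> rcases h2 with h2 | h2
          · exact absurd (h1.trans h2.symm) hne
          · rw [h1, h2]; exact hnew.symm
          · rw [h1, h2]; exact hnew
          · exact absurd (h1.trans h2.symm) hne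

end Pool.Agent.Helper44.Rsl
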