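import Pool.Agent.Helper44.Rsl.PeelF
import Pool.Agent.Helper44.Rsl.DefsF
import Pool.Agent.Helper6.Rsl.EmbK

/-! # Embedding a graph with black edges and black trees into a clean pair -/

set_option autoImplicit false
open Classical Finset

namespace Pool.Agent.Helper44.Rsl
open Pool.Agent.Helper30.TwoTree (prs tri restr nb)
open Pool.Agent.Helper14.Rsl (back)
open Pool.Agent.Helper6.Rsl

variable {V X : Type} [Fintype V] [Fintype X]

/-- all vertices of `W` are good partners of the image of `u` in the neighbourhood of the image of
`y` -/
def Good (s : ℕ) (M : SimpleGraph X) (fy fu : X) (W : Finset X) : Prop :=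
  ∀ w ∈ W, s ≤ (cn M fu w).card ∧ ∀ d ∈ cn M fu w, fy ≠ d → s ≤ (cn M fy d).card

/-- a core in the black neighbourhood of `a` -/
def IsCore (s : ℕ) (Γ M : SimpleGraph X) (a : X) (W : Finset X) : Prop :=
  W ⊆ nbr M a ∧ ∀ w ∈ W, s ≤ (W.filter (fun z => Γ.Adj w z)).card

/-- the invariants of the greedy embedding -/
structure InvF (T K : SimpleGraph V) (r : V → ℕ) (A : Set V) (s : ℕ) (Γ M : SimpleGraph X)
    (P : V → Prop) (f : V → X) (W : V → Finset X) : Prop where
  inj : ∀ a b, P a → P b → f a = f b → a = b
  ni : ∀ a, P a → ∃ z, Γ.Adj (f a) z
  adj : ∀ a b, P a → P b → T.Adj a b → Γ.Adj (f a) (f b)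
  blk : ∀ a b, P a → P b → K.Adj a b → M.Adj (f a) (f b)
  core : ∀ z y, P z → z ∉ A → back T r z = {y} → K.Adj z y → IsCore s Γ M (f y) (W z)
  good : ∀ z y, P z → z ∉ A → back T r z = {y} → K.Adj z y → ∀ u, K.Adj u y → r u < r z →
    Good s M (f y) (f u) (W z)
  mem : ∀ y v z, P v → InTree T K r A y v z → f v ∈ W z

omit [Fintype V] in
/-- adding one vertex -/
theorem InvF.add {T K : SimpleGraph V} {r : V → ℕ} {A : Set V} {s : ℕ} {Γ M : SimpleGraph X}
    {P : V → Prop} {f : V → X} {W : V → Finset X} (h : InvF T K r A s Γ M P f W) (v : V) (z0 : X)
    (W0 : Finset X) (hv : ¬ P v)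
    (hlt : ∀ a, P a → r a < r v) (hdown : ∀ a, r a < r v → P a)
    (z1 : ∀ a, P a → f a ≠ z0) (z2 : ∃ y, Γ.Adj z0 y) (z3 : ∀ a, P a → T.Adj v a → Γ.Adj z0 (f a))
    (z3' : ∀ a, P a → K.Adj v a → M.Adj z0 (f a))
    (c1 : ∀ y, v ∉ A → back T r v = {y} → K.Adj v y → IsCore s Γ M (f y) W0 ∧ z0 ∈ W0 ∧
      ∀ u, P u → K.Adj u y → Good s M (f y) (f u) W0)
    (c2 : ∀ y u z, v ∉ A → back T r v = {y, u} → u ≠ y → K.Adj v y → ¬ K.Adj v u →
      InTree T K r A y u z → z0 ∈ W z) :
    InvF T K r A s Γ M (fun a => P a ∨ a = v) (Function.update f v z0) (Function.update W v W0) := by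
  have hne : ∀ a, P a → a ≠ v := fun a ha hav => hv (hav ▸ ha)
  have hyP : ∀ z y, back T r z = {y} → (P z ∨ z = v) → P y := by
    intro z y hb hz
    have h1 : y ∈ back T r z := by rw [hb]; rfl
    have h2 := h1.2
    refine hdown y ?_
    rcases hz with hz | rfl
    · have := hlt z hz; omega
    · exact h2
  refine ⟨?_, ?_, ?_, ?_, ?_, ?_, ?_⟩
  · rintro a b (ha | rfl) (hb | rfl) hab
    · rw [Function.update_of_ne (hne a ha), Function.update_of_ne (hne b hb)] at hab
      exact h.inj a b ha hb hab
    · rw [Function.update_of_ne (hne a ha), Function.update_self] at hab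
      exact absurd hab (z1 a ha)
    · rw [Function.update_self, Function.update_of_ne (hne b hb)] at hab
      exact absurd hab.symm (z1 b hb)
    · rfl
  · rintro a (ha | rfl)
    · rw [Function.update_of_ne (hne a ha)]; exact h.ni a ha
    · rw [Function.update_self]; exact z2
  · rintro a b (ha | rfl) (hb | rfl) hab
    · rw [Function.update_of_ne (hne a ha), Function.update_of_ne (hne b hb)]
      exact h.adj a b ha hb hab
    · rw [Function.update_of_ne (hne a ha), Function.update_self]
      exact (z3 a ha hab.symm).symm
    · rw [Function.update_self, Function.update_of_ne (hne b hb)]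
      exact z3 b hb hab
    · exact absurd hab (T.loopless.irrefl _)
  · rintro a b (ha | rfl) (hb | rfl) hab
    · rw [Function.update_of_ne (hne a ha), Function.update_of_ne (hne b hb)]
      exact h.blk a b ha hb hab
    · rw [Function.update_of_ne (hne a ha), Function.update_self]
      exact (z3' a ha hab.symm).symm
    · rw [Function.update_self, Function.update_of_ne (hne b hb)]
      exact z3' b hb hab
    · exact absurd hab (K.loopless.irrefl _)
  · intro z y hz hA hb hk
    have hy := hyP z y hb hz
    rw [Function.update_of_ne (hne y hy)]
    rcases hz with hz | rfl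
    · rw [Function.update_of_ne (hne z hz)]
      exact h.core z y hz hA hb hk
    · rw [Function.update_self]
      exact (c1 y hA hb hk).1
  · intro z y hz hA hb hk u hu hr
    have hy := hyP z y hb hz
    have huP : P u := by
      refine hdown u ?_
      rcases hz with hz | rfl
      · have := hlt z hz; omega
      · exact hr
    rw [Function.update_of_ne (hne y hy), Function.update_of_ne (hne u huP)]
    rcases hz with hz | rfl
    · rw [Function.update_of_ne (hne z hz)]
      exact h.good z y hz hA hb hk u hu hr
    · rw [Function.update_self]
      exact (c1 y hA hb hk).2.2 u huP hu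
  · intro y v' z hv' ht
    rcases hv' with hv' | hv'
    · have hz : z ≠ v := by
        intro hzv
        have h1 := ht.root_le
        have h2 := hlt v' hv'
        rw [hzv] at h1
        omega
      rw [Function.update_of_ne (hne v' hv'), Function.update_of_ne hz]
      exact h.mem y v' z hv' ht
    · rw [hv'] at ht ⊢
      rw [Function.update_self]
      cases ht with
      | root _ hA hb hk =>
        rw [Function.update_self]
        exact (c1 y hA hb hk).2.1
      | step _ u _ hA hb hu hk hn ht' =>
        have hz : z ≠ v := by
          intro hzv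
          have h1 := ht'.root_le
          have h2 : u ∈ back T r v := by rw [hb]; exact Or.inr rfl
          have h3 := h2.2
          rw [hzv] at h1
          omega
        rw [Function.update_of_ne hz]
        exact c2 y u z hA hb hu hk hn ht'

/-- the choice of a core -/
theorem exists_core {T K : SimpleGraph V} {r : V → ℕ} {A : Set V} {s δ : ℕ} {Γ M : SimpleGraph X}
    {P : V → Prop} {f : V → X} {W : V → Finset X} (h : InvF T K r A s Γ M P f W)
    (hs : Fintype.card V ≤ s) (hs0 : 0 < s)
    (hcl : CleanF s δ Γ M) (hδ : 4 * s < δ) (u : V) (hu : P u) :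
    ∃ W0, IsCore s Γ M (f u) W0 ∧ W0.Nonempty ∧ (∀ w ∈ W0, ∀ a, P a → f a ≠ w) ∧
      ∀ w, P w → K.Adj w u → Good s M (f u) (f w) W0 := by
  have hni := h.ni u hu
  have hD1 := hcl.deg (f u) hni
  set a := f u with ha
  set N := nbr M a with hN
  set D := N.card with hD
  set U : Finset X := (univ.filter (fun b : V => P b)).image f with hU
  have hUc : U.card ≤ s := (Finset.card_image_le.trans (Finset.card_le_univ _)).trans hs
  set B2 : Finset X := (univ.filter (fun w : V => P w ∧ K.Adj w u)).biUnion
    (fun w => bp s M a (f w)) with hB2
  have hB2c : 4 * B2.card ≤ D := by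
    have h1 : B2.card ≤ ∑ w ∈ univ.filter (fun w : V => P w ∧ K.Adj w u),
        (bp s M a (f w)).card := Finset.card_biUnion_le
    have h2 : 4 * s * B2.card ≤ s * D := by
      calc 4 * s * B2.card ≤ 4 * s * ∑ w ∈ univ.filter (fun w : V => P w ∧ K.Adj w u),
            (bp s M a (f w)).card := Nat.mul_le_mul_left _ h1
        _ = ∑ w ∈ univ.filter (fun w : V => P w ∧ K.Adj w u),
            4 * s * (bp s M a (f w)).card := by rw [Finset.mul_sum]
        _ ≤ ∑ w ∈ univ.filter (fun w : V => P w ∧ K.Adj w u), D := by
            refine Finset.sum_le_sum fun w hw => ?_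
            simp only [mem_filter, mem_univ, true_and] at hw
            exact hcl.few (f w) a (h.blk w u hw.1 hu hw.2)
        _ = (univ.filter (fun w : V => P w ∧ K.Adj w u)).card * D := by
            rw [Finset.sum_const, smul_eq_mul]
        _ ≤ s * D := Nat.mul_le_mul_right _ ((Finset.card_le_univ _).trans hs)
    have h3 : s * (4 * B2.card) ≤ s * D := by
      rw [show s * (4 * B2.card) = 4 * s * B2.card by ring]; exact h2
    exact Nat.le_of_mul_le_mul_left h3 hs0
  set Z : Finset X := N \ (U ∪ B2) with hZ
  have hZc : D ≤ 2 * Z.card := by
    have h1 : N.card ≤ Z.card + (U ∪ B2).card := by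
      rw [hZ]
      exact Finset.card_le_card_sdiff_add_card
    have h2 := Finset.card_union_le U B2
    omega
  have hNne : N.Nonempty := Finset.card_pos.1 (by omega)
  obtain ⟨W0, hWZ, hWne, hWc⟩ := hcl.cor a Z Finset.sdiff_subset hNne hZc
  refine ⟨W0, ⟨hWZ.trans Finset.sdiff_subset, hWc⟩, hWne, ?_, ?_⟩
  · intro w hw b hb hbw
    have h1 := (Finset.mem_sdiff.1 (hWZ hw)).2
    exact h1 (Finset.mem_union_left _ (Finset.mem_image.2 ⟨b, by simpa using hb, hbw⟩))
  · intro w hw hwu z hz
    have h1 := Finset.mem_sdiff.1 (hWZ hz)
    have hzN := h1.1
    have hne : f w ≠ z := by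
      intro hwz
      exact h1.2 (Finset.mem_union_left _ (Finset.mem_image.2 ⟨w, by simpa using hw, hwz⟩))
    have hzB2 : z ∉ B2 := fun h2 => h1.2 (Finset.mem_union_right _ h2)
    constructor
    · by_contra hc
      push Not at hc
      refine hzB2 (Finset.mem_biUnion.2 ⟨w, by simpa using ⟨hw, hwu⟩, ?_⟩)
      exact Finset.mem_filter.2 ⟨hzN, hne, Or.inl hc⟩
    · intro d hd had
      by_contra hc
      push Not at hc
      refine hzB2 (Finset.mem_biUnion.2 ⟨w, by simpa using ⟨hw, hwu⟩, ?_⟩)
      exact Finset.mem_filter.2 ⟨hzN, hne, Or.inr ⟨d, hd, had, hc⟩⟩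

/-- the embedding -/
theorem embed_cleanF {T K : SimpleGraph V} {r : V → ℕ} {A : Set V} (hB : BuildF T K r A) {s δ : ℕ}
    {Γ M : SimpleGraph X} (hMΓ : M ≤ Γ) (hs : Fintype.card V ≤ s) (hs0 : 0 < s)
    (hcl : CleanF s δ Γ M) (hδ : 4 * s < δ) (hne : ∃ x y, Γ.Adj x y) (f0 : V → X)
    (b1 : ∀ a ∈ A, ∃ z, Γ.Adj (f0 a) z) (b2 : ∀ a ∈ A, ∀ b ∈ A, f0 a = f0 b → a = b)
    (b3 : ∀ a ∈ A, ∀ b ∈ A, T.Adj a b → M.Adj (f0 a) (f0 b)) (t : ℕ) :
    ∃ (f : V → X) (W : V → Finset X), InvF T K r A s Γ M (fun a => a ∈ A ∨ r a < t) f W := by
  obtain ⟨x0, y0, hxy0⟩ := hne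
  induction t with
  | zero =>
    refine ⟨f0, fun _ => ∅, ⟨?_, ?_, ?_, ?_, ?_, ?_, ?_⟩⟩
    · rintro a b (ha | ha) (hb | hb) hab
      · exact b2 a ha b hb hab
      all_goals omega
    · rintro a (ha | ha)
      · exact b1 a ha
      · omega
    · rintro a b (ha | ha) (hb | hb) hab
      · exact hMΓ (b3 a ha b hb hab)
      all_goals omega
    · rintro a b (ha | ha) (hb | hb) hab
      · exact b3 a ha b hb (hB.le hab)
      all_goals omega
    · rintro z y (hz | hz) hA _ _
      · exact absurd hz hA
      · omega
    · rintro z y (hz | hz) hA _ _ _ _ _
      · exact absurd hz hA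
      · omega
    · rintro y v z (hv | hv) ht
      · exact absurd hv ht.notMem
      · omega
  | succ t ih =>
    obtain ⟨f, W, hf⟩ := ih
    by_cases hv : ∃ v, v ∉ A ∧ r v = t
    · obtain ⟨v, hvA, hv⟩ := hv
      set P : V → Prop := fun a => a ∈ A ∨ r a < t with hP
      have hPv : ¬ P v := by
        rintro (h | h)
        · exact hvA h
        · omega
      have hlt : ∀ a, P a → r a < r v := by
        rintro a (h | h)
        · exact hB.first a h v hvA
        · omega
      have hdown : ∀ a, r a < r v → P a := fun a h => Or.inr (by omega)
      have hPeq : (fun a => a ∈ A ∨ r a < t + 1) = fun a => P a ∨ a = v := by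
        ext a
        constructor
        · rintro (h | h)
          · exact Or.inl (Or.inl h)
          · by_cases hav : r a = t
            · exact Or.inr (hB.inj (hav.trans hv.symm))
            · exact Or.inl (Or.inr (by omega))
        · rintro ((h | h) | rfl)
          · exact Or.inl h
          · exact Or.inr (by omega)
          · exact Or.inr (by omega)
      rw [hPeq]
      have hback : ∀ a, P a → T.Adj v a → a ∈ back T r v := fun a ha hva => ⟨hva, hlt a ha⟩
      have hback' : ∀ a, a ∈ back T r v → P a := fun a ha => hdown a ha.2
      -- used vertices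
      set U : Finset X := (univ.filter (fun b : V => P b)).image f with hU
      have hUc : U.card < s := by
        refine lt_of_le_of_lt Finset.card_image_le (lt_of_lt_of_le ?_ hs)
        rw [← Finset.card_univ]
        refine Finset.card_lt_card ⟨Finset.filter_subset _ _, ?_⟩
        intro h
        have := h (Finset.mem_univ v)
        exact hPv (by simpa using this)
      have hUf : ∀ z, z ∉ U → ∀ a, P a → f a ≠ z := by
        intro z hz a ha haz
        exact hz (Finset.mem_image.2 ⟨a, by simpa using ha, haz⟩)
      have havoid : ∀ W : Finset X, s ≤ W.card → ∃ z ∈ W, z ∉ U := by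
        intro W hW
        by_contra hcon
        push Not at hcon
        have := Finset.card_le_card (show _ ⊆ U from hcon)
        omega
      by_cases h0 : ∃ x, x ∈ back T r v
      · obtain ⟨x, hx⟩ := h0
        by_cases h1 : ∃ x', x' ∈ back T r v ∧ x ≠ x'
        · -- two earlier neighbours
          obtain ⟨x', hx', hxx'⟩ := h1
          have honly : ∀ c, c ∈ back T r v → c = x ∨ c = x' := by
            intro c hc
            by_contra hcon
            push Not at hcon
            have h3 : ({c, x, x'} : Set V) ⊆ back T r v := by
              intro y hy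
              simp only [Set.mem_insert_iff, Set.mem_singleton_iff] at hy
              rcases hy with rfl | rfl | rfl
              · exact hc
              · exact hx
              · exact hx'
            have h4 := (Set.encard_le_encard h3).trans (hB.two v hvA)
            rw [Set.encard_insert_of_notMem (by simp [hcon.1, hcon.2]), Set.encard_pair hxx'] at h4
            norm_num at h4
          have hPx := hback' x hx
          have hPx' := hback' x' hx'
          have hnoroot : ∀ u, back T r v = {u} → False := by
            intro u hu
            rw [hu] at hx hx'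
            exact hxx' (hx.trans hx'.symm)
          by_cases htree : ∃ y u z, back T r v = {y, u} ∧ u ≠ y ∧ K.Adj v y ∧ ¬ K.Adj v u ∧
              InTree T K r A y u z
          · -- a vertex of a black tree
            obtain ⟨y, u, z, hbv, huy, hvy, hvu, ht⟩ := htree
            have hyb : y ∈ back T r v := by rw [hbv]; exact Or.inl rfl
            have hub : u ∈ back T r v := by rw [hbv]; exact Or.inr rfl
            have hPy := hback' y hyb
            have hPu := hback' u hub
            have hroot := ht.isRoot
            have hPz : P z := hdown z (lt_of_le_of_lt ht.root_le hub.2)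
            have hcore := hf.core z y hPz hroot.1 hroot.2.1 hroot.2.2
            have hmem := hf.mem y u z hPu ht
            obtain ⟨z0, hz0, hz0U⟩ := havoid _ (hcore.2 _ hmem)
            rw [mem_filter] at hz0
            have hzM : M.Adj (f y) z0 := by
              have := hcore.1 hz0.1
              simpa [nbr] using this
            have hb2 : ∀ c, c ∈ back T r v → c = y ∨ c = u := by
              intro c hc
              rw [hbv] at hc
              exact hc
            refine ⟨_, _, hf.add v z0 ∅ hPv hlt hdown (hUf z0 hz0U) ⟨_, hz0.2.symm⟩ ?_ ?_ ?_ ?_⟩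
            · intro a ha hva
              rcases hb2 a (hback a ha hva) with rfl | rfl
              · exact (hMΓ hzM).symm
              · exact hz0.2.symm
            · intro a ha hva
              rcases hb2 a (hback a ha (hB.le hva)) with rfl | rfl
              · exact hzM.symm
              · exact absurd hva hvu
            · intro y' _ hb' _
              exact (hnoroot y' hb').elim
            · intro y' u' z' _ hb' hu' hk' _ ht'
              have e1 : y' = y := by
                have : y' ∈ back T r v := by rw [hb']; exact Or.inl rfl
                rcases hb2 y' this with h | h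
                · exact h
                · rw [h] at hk'
                  exact absurd hk' hvu
              subst e1
              have e2 : u' = u := by
                have : u' ∈ back T r v := by rw [hb']; exact Or.inr rfl
                rcases hb2 u' this with h | h
                · exact absurd h hu'
                · exact h
              subst e2
              rw [← ht.root_unique z' ht']
              exact hz0.1
          · -- it suffices to find a suitable vertex
            suffices hz : ∃ z, z ∉ U ∧ Γ.Adj z (f x) ∧ Γ.Adj z (f x') ∧
                (K.Adj v x → M.Adj z (f x)) ∧ (K.Adj v x' → M.Adj z (f x')) by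
              obtain ⟨z, hzU, hz1, hz2, hz3, hz4⟩ := hz
              refine ⟨_, _, hf.add v z ∅ hPv hlt hdown (hUf z hzU) ⟨_, hz1⟩ ?_ ?_ ?_ ?_⟩
              · intro a ha hva
                rcases honly a (hback a ha hva) with rfl | rfl
                · exact hz1
                · exact hz2
              · intro a ha hva
                rcases honly a (hback a ha (hB.le hva)) with rfl | rfl
                · exact hz3 hva
                · exact hz4 hva
              · intro y' _ hb' _
                exact (hnoroot y' hb').elim
              · intro y' u' z' _ hb' hu' hk' hn' ht'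
                exact absurd ⟨y', u', z', hb', hu', hk', hn', ht'⟩ htree
            -- a black edge to both: many common black neighbours suffice
            have hmany : s ≤ (cn M (f x) (f x')).card → ∃ z, z ∉ U ∧ Γ.Adj z (f x) ∧
                Γ.Adj z (f x') ∧ (K.Adj v x → M.Adj z (f x)) ∧ (K.Adj v x' → M.Adj z (f x')) := by
              intro hh
              obtain ⟨z, hz, hzU⟩ := havoid _ hh
              simp only [cn, mem_filter, mem_univ, true_and] at hz
              exact ⟨z, hzU, (hMΓ hz.1).symm, (hMΓ hz.2).symm, fun _ => hz.1.symm, fun _ => hz.2.symm⟩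
            have hheavy : ∀ a b, a ∈ back T r v → b ∈ back T r v → ∀ y z, K.Adj a y →
                InTree T K r A y b z → r a < r z → s ≤ (cn M (f a) (f b)).card := by
              intro a b ha hb y z hay ht hr
              have hPb := hback' b hb
              have hPz : P z := hdown z (lt_of_le_of_lt ht.root_le hb.2)
              have hroot := ht.isRoot
              exact (hf.good z y hPz hroot.1 hroot.2.1 hroot.2.2 a hay hr _ (hf.mem y b z hPb ht)).1
            have hsquare : ∀ a b, a ∈ back T r v → b ∈ back T r v → a ≠ b → ∀ y y' z, K.Adj a y →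
                K.Adj b y → K.Adj a y' → K.Adj b y' → r y < r z → InTree T K r A a y' z →
                s ≤ (cn M (f a) (f b)).card := by
              intro a b ha hb hab y y' z k1 k2 k3 k4 hr ht
              have hPa := hback' a ha
              have hPb := hback' b hb
              have hPy' : P y' := by
                by_contra hcon
                have h3 : ¬ r y' < r v := fun h => hcon (hdown y' h)
                have h4 := hb.2
                have h5 : b ∈ back T r y' := ⟨hB.le k4.symm, by omega⟩
                cases ht with
                | root _ _ hb' _ =>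
                  rw [hb'] at h5
                  exact hab h5.symm
                | step _ u _ _ hb' _ _ hn _ =>
                  rw [hb'] at h5
                  rcases h5 with h5 | h5
                  · exact hab h5.symm
                  · have h6 : b = u := h5
                    rw [← h6] at hn
                    exact hn k4.symm
              have hPz : P z := hdown z (lt_of_le_of_lt ht.root_le (hlt y' hPy'))
              have hPy : P y := hdown y (lt_trans hr (hlt z hPz))
              have hroot := ht.isRoot
              have hg := hf.good z a hPz hroot.1 hroot.2.1 hroot.2.2 y k1.symm hr _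
                (hf.mem a y' z hPy' ht)
              refine hg.2 (f b) ?_ (fun h => hab (hf.inj a b hPa hPb h))
              simp only [cn, mem_filter, mem_univ, true_and]
              exact ⟨hf.blk y b hPy hPb k2.symm, hf.blk y' b hPy' hPb k4.symm⟩
            rcases hB.rule v hvA x hx x' hx' hxx' with
              ⟨hadj, hnot, himp⟩ | ⟨y, hxy, hx'y, z, hch⟩ | ⟨y, y', k1, k2, k3, k4, z, hr, hbk⟩
            · by_cases hk1 : K.Adj v x
              · have hk2 : ¬ K.Adj v x' := fun h => hnot ⟨hk1, h⟩
                have hM := hf.blk x x' hPx hPx' (himp (Or.inl hk1))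
                obtain ⟨z, hz, hzU⟩ := havoid _ (hcl.chy _ _ hM)
                simp only [bn, mem_filter, mem_univ, true_and] at hz
                exact ⟨z, hzU, (hMΓ hz.1).symm, hz.2.symm, fun _ => hz.1.symm, fun h => absurd h hk2⟩
              · by_cases hk2 : K.Adj v x'
                · have hM := hf.blk x x' hPx hPx' (himp (Or.inr hk2))
                  obtain ⟨z, hz, hzU⟩ := havoid _ (hcl.chy _ _ hM.symm)
                  simp only [bn, mem_filter, mem_univ, true_and] at hz
                  exact ⟨z, hzU, hz.2.symm, (hMΓ hz.1).symm, fun h => absurd h hk1, fun _ => hz.1.symm⟩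
                · obtain ⟨z, hz, hzU⟩ := havoid _ (hcl.tri _ _ (hf.adj x x' hPx hPx' hadj))
                  simp only [cn, mem_filter, mem_univ, true_and] at hz
                  exact ⟨z, hzU, hz.1.symm, hz.2.symm, fun h => absurd h hk1, fun h => absurd h hk2⟩
            · refine hmany ?_
              rcases hch with ⟨ht, hr⟩ | ⟨ht, hr⟩
              · exact hheavy x x' hx hx' y z hxy ht hr
              · rw [cn_comm]
                exact hheavy x' x hx' hx y z hx'y ht hr
            · refine hmany ?_
              rcases hbk with hbk | hbk
              · exact hsquare x x' hx hx' hxx' y y' z k1 k2 k3 k4 hr hbk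
              · rw [cn_comm]
                exact hsquare x' x hx' hx hxx'.symm y y' z k2 k1 k4 k3 hr hbk
        · -- one earlier neighbour
          push Not at h1
          have hbx : back T r v = {x} := by
            ext c
            constructor
            · intro hc; exact (h1 c hc).symm
            · intro hc; rw [hc]; exact hx
          obtain ⟨W0, hcore, ⟨z0, hz0⟩, hfree, hgood⟩ := exists_core hf hs hs0 hcl hδ x (hback' x hx)
          have hzM : M.Adj (f x) z0 := by
            have := hcore.1 hz0
            simpa [nbr] using this
          have hux : ∀ u, back T r v = {u} → u = x := by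
            intro u hu
            rw [hbx] at hu
            exact (Set.singleton_injective hu).symm
          refine ⟨_, _, hf.add v z0 W0 hPv hlt hdown (hfree z0 hz0) ⟨_, (hMΓ hzM).symm⟩ ?_ ?_ ?_ ?_⟩
          · intro a ha hva
            rw [← h1 a (hback a ha hva)]
            exact (hMΓ hzM).symm
          · intro a ha hva
            rw [← h1 a (hback a ha (hB.le hva))]
            exact hzM.symm
          · intro u _ hu _
            rw [hux u hu]
            exact ⟨hcore, hz0, hgood⟩
          · intro y u z _ hb hu _ _ _
            exfalso
            have e1 : y ∈ back T r v := by rw [hb]; exact Or.inl rfl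
            have e2 : u ∈ back T r v := by rw [hb]; exact Or.inr rfl
            exact hu ((h1 u e2).symm.trans (h1 y e1))
      · -- no earlier neighbour
        push Not at h0
        have hd0 := hcl.deg x0 ⟨y0, hxy0⟩
        obtain ⟨z, hz, hzU⟩ := havoid (nbr M x0) (by omega)
        simp only [nbr, mem_filter, mem_univ, true_and] at hz
        refine ⟨_, _, hf.add v z ∅ hPv hlt hdown (hUf z hzU) ⟨x0, (hMΓ hz).symm⟩ ?_ ?_ ?_ ?_⟩
        · intro a ha hva
          exact absurd (hback a ha hva) (h0 a)
        · intro a ha hva
          exact absurd (hback a ha (hB.le hva)) (h0 a)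
        · intro u _ hu _
          exact absurd (by rw [hu]; rfl) (h0 u)
        · intro y u z _ hb _ _ _ _
          exact absurd (by rw [hb]; exact Or.inl rfl) (h0 y)
    · push Not at hv
      refine ⟨f, W, ?_⟩
      have hPeq : (fun a => a ∈ A ∨ r a < t + 1) = fun a => a ∈ A ∨ r a < t := by
        ext a
        constructor
        · rintro (h | h)
          · exact Or.inl h
          · by_cases haA : a ∈ A
            · exact Or.inl haA
            · have := hv a haA
              exact Or.inr (by omega)
        · rintro (h | h)
          · exact Or.inl h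
          · exact Or.inr (by omega)
      rw [hPeq]
      exact hf

end Pool.Agent.Helper44.Rsl
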