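import Pool.Agent.Helper44.Rsl.EmbF
import Pool.Agent.Helper6.Rsl.FMK

/-! # The first moment bound for the class with black trees -/

set_option autoImplicit false
open Classical Finset

namespace Pool.Agent.Helper44.Rsl
open Pool.Agent.Helper30.TwoTree (prs tri restr nb turan_bound)
open Pool.Agent.Helper6.Rsl

variable {X : Type} [Fintype X]

/-- auxiliary constant -/
noncomputable def K3 (s : ℕ) (c0 : ℝ) : ℝ := 2 * (4 * s + 3) + 4 * s ^ 3 + Real.sqrt c0

/-- the constant of the first moment bound -/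
noncomputable def KF (s : ℕ) (c0 : ℝ) : ℝ := (23 * s + 9) + K3 s c0 * ((23 * s + 10) + K3 s c0)

theorem one_le_K3 (s : ℕ) (c0 : ℝ) : 1 ≤ K3 s c0 := by
  unfold K3
  have : (0:ℝ) ≤ 8 * s + 4 * s ^ 3 := by positivity
  have := Real.sqrt_nonneg c0
  linarith

theorem one_le_KF (s : ℕ) (c0 : ℝ) : 1 ≤ KF s c0 := by
  unfold KF
  have h1 := one_le_K3 s c0
  have h2 : (0:ℝ) ≤ (s : ℝ) := Nat.cast_nonneg s
  have h3 : 0 ≤ K3 s c0 * ((23 * s + 10) + K3 s c0) := by positivity
  linarith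

/-- the first moment bound -/
theorem first_momentF {V : Type} [Fintype V] {T K : SimpleGraph V} {r : V → ℕ} {A : Set V}
    (hB : BuildF T K r A) (c0 : ℝ) (hc0 : 0 ≤ c0) (Γ : SimpleGraph X)
    (hbase : ∀ (Γ' : SimpleGraph X) (S' : Finset X), Γ' ≤ Γ → (∀ a b, Γ'.Adj a b → a ∈ S') →
      c0 * (S'.card : ℝ) ^ 3 < ((prs Γ').card : ℝ) ^ 2 →
      ∃ f : V → X, (∀ a ∈ A, f a ∈ S') ∧ (∀ a ∈ A, ∀ b ∈ A, f a = f b → a = b) ∧
        ∀ a ∈ A, ∀ b ∈ A, T.Adj a b → Γ'.Adj (f a) (f b))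
    (hno : ¬ ∃ f : V → X, Function.Injective f ∧ ∀ a b : V, T.Adj a b → Γ.Adj (f a) (f b))
    (S : Finset X) (i : ℕ) (hi : ∀ I ⊆ S, (∀ a ∈ I, ∀ b ∈ I, ¬ Γ.Adj a b) → I.card < i) :
    ((∑ u ∈ S, (nb Γ S u).card : ℕ) : ℝ) ≤ KF (Fintype.card V) c0 * i * S.card := by
  have hVne : Nonempty V := by
    by_contra hc
    rw [not_nonempty_iff] at hc
    exact hno ⟨fun a => hc.elim a, fun a => hc.elim a, fun a => hc.elim a⟩
  set s := Fintype.card V with hs
  have hs0 : 0 < s := Fintype.card_pos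
  have hi0 : 0 < i := by
    have := hi ∅ (Finset.empty_subset _) (fun a ha => absurd ha (Finset.notMem_empty a))
    simpa using this
  rcases S.eq_empty_or_nonempty with rfl | hSne
  · simp
  have hn1 : 1 ≤ S.card := Finset.card_pos.2 hSne
  set n := S.card with hn
  set q : ℝ := Real.sqrt n with hq
  have hq2 : q ^ 2 = n := Real.sq_sqrt (Nat.cast_nonneg n)
  have hq1 : 1 ≤ q := by
    rw [hq, ← Real.sqrt_one]
    exact Real.sqrt_le_sqrt (by exact_mod_cast hn1)
  have hq0 : 0 < q := by linarith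
  have hs' : (0:ℝ) ≤ (s:ℝ) := Nat.cast_nonneg s
  set δ : ℕ := Nat.sqrt n + 4 * s + 2 with hδ
  have hδs : 4 * s < δ := by omega
  have hδ0 : 0 < δ := by omega
  have hδ0' : (0:ℝ) < δ := by exact_mod_cast hδ0
  have hδq : q ≤ δ := by
    rw [hq]
    refine Real.sqrt_le_left (by positivity) |>.2 ?_
    have h1 : n ≤ (Nat.sqrt n + 1) ^ 2 := by
      have := Nat.lt_succ_sqrt n
      rw [Nat.succ_eq_add_one] at this
      nlinarith
    have h2 : (Nat.sqrt n + 1) ^ 2 ≤ δ ^ 2 := Nat.pow_le_pow_left (by omega) 2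
    exact_mod_cast h1.trans h2
  have hδu : (δ:ℝ) ≤ (4 * s + 3) * q := by
    have h1 : (Nat.sqrt n : ℝ) ≤ q := by
      rw [hq]
      refine Real.le_sqrt_of_sq_le ?_
      have := Nat.sqrt_le' n
      exact_mod_cast this
    rw [hδ]
    push_cast
    nlinarith
  set e0 : ℝ := Real.sqrt c0 * (n * q) with he0
  have he00 : 0 ≤ e0 := by positivity
  have he02 : e0 ^ 2 = c0 * (n : ℝ) ^ 3 := by
    rw [he0, mul_pow, Real.sq_sqrt hc0, mul_pow, hq2]; ring
  -- peeling
  obtain ⟨E, C, hE, hC, hchr, hcch, hle⟩ := peelF s δ e0 hs0 hδ0 _ (restr Γ S) (restr Γ S) le_rfl le_rfl (by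
    intro Γ' M' hΓ' hM' hMΓ hcl
    by_contra hcon
    push Not at hcon
    have hpos : (0:ℝ) < (prs M').card := lt_of_le_of_lt he00 hcon
    have hpos' : 0 < (prs M').card := by exact_mod_cast hpos
    obtain ⟨⟨x, y⟩, hxy⟩ := Finset.card_pos.1 hpos'
    simp only [prs, mem_filter, mem_univ, true_and] at hxy
    have hsub : niv M' ⊆ S := by
      intro a ha
      simp only [niv, mem_filter, mem_univ, true_and] at ha
      obtain ⟨z, hz⟩ := ha
      exact (hM' hz).2.1
    have hnc : (niv M').card ≤ n := Finset.card_le_card hsub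
    have hΓle : Γ' ≤ Γ := fun a b h => (hΓ' h).1
    obtain ⟨f0, b0, b2, b3⟩ := hbase M' (niv M') (hMΓ.trans hΓle) (by
      intro a b h
      simp only [niv, mem_filter, mem_univ, true_and]
      exact ⟨b, h⟩) (by
      calc c0 * ((niv M').card : ℝ) ^ 3 ≤ c0 * (n : ℝ) ^ 3 := by
            apply mul_le_mul_of_nonneg_left _ hc0
            exact pow_le_pow_left₀ (Nat.cast_nonneg _) (by exact_mod_cast hnc) 3
        _ = e0 ^ 2 := he02.symm
        _ < ((prs M').card : ℝ) ^ 2 := pow_lt_pow_left₀ hcon he00 (by norm_num))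
    obtain ⟨t, ht⟩ : ∃ t, ∀ v : V, r v < t :=
      ⟨(univ.sup r) + 1, fun v => Nat.lt_succ_of_le (Finset.le_sup (f := r) (Finset.mem_univ v))⟩
    obtain ⟨f, W, hf⟩ := embed_cleanF hB hMΓ (s := s) (δ := δ) le_rfl hs0 hcl hδs ⟨x, y, hMΓ hxy⟩ f0 (by
        intro a ha
        have := b0 a ha
        simp only [niv, mem_filter, mem_univ, true_and] at this
        obtain ⟨z, hz⟩ := this
        exact ⟨z, hMΓ hz⟩) b2 b3 t
    exact hno ⟨f, fun a b hab => hf.inj a b (Or.inr (ht a)) (Or.inr (ht b)) hab,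
      fun a b hab => hΓle (hf.adj a b (Or.inr (ht a)) (Or.inr (ht b)) hab)⟩)
  have hpoor := poor_le s Γ S i hi E hE hchr
  have hpoorC := poorC_le s Γ S i hi0 hi C (fun p hp => (hC p hp).2) _ hpoor (by
    exact_mod_cast hcch)
  have hniv : ((niv (restr Γ S)).card : ℝ) ≤ n := by
    have : niv (restr Γ S) ⊆ S := by
      intro a ha
      simp only [niv, mem_filter, mem_univ, true_and] at ha
      obtain ⟨z, hz⟩ := ha
      exact hz.2.1
    exact_mod_cast Finset.card_le_card this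
  have hPhi : (Phi s (restr Γ S) : ℝ) ≤ s * (n : ℝ) ^ 2 := by exact_mod_cast Phi_le s Γ S
  set P : ℝ := ((prs (restr Γ S)).card : ℝ) with hP
  have hP1 : P ≤ (23 * s + 9) * i * n + K3 s c0 * (n * q) := by
    have h1 : 2 * (δ:ℝ) * (niv (restr Γ S)).card ≤ 2 * (4 * s + 3) * (n * q) := by
      calc 2 * (δ:ℝ) * (niv (restr Γ S)).card ≤ 2 * (δ:ℝ) * n :=
            mul_le_mul_of_nonneg_left hniv (by positivity)
        _ ≤ 2 * ((4 * s + 3) * q) * n := by
            apply mul_le_mul_of_nonneg_right _ (by positivity)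
            linarith
        _ = 2 * (4 * s + 3) * (n * q) := by ring
    have h2 : 4 * s ^ 2 / δ * Phi s (restr Γ S) ≤ 4 * s ^ 3 * (n * q) := by
      calc 4 * s ^ 2 / δ * Phi s (restr Γ S) ≤ 4 * s ^ 2 / δ * (s * (n : ℝ) ^ 2) :=
            mul_le_mul_of_nonneg_left hPhi (by positivity)
        _ ≤ 4 * s ^ 2 / q * (s * (n : ℝ) ^ 2) := by
            apply mul_le_mul_of_nonneg_right _ (by positivity)
            exact div_le_div_of_nonneg_left (by positivity) hq0 hδq
        _ = 4 * s ^ 3 * (n * ((n:ℝ) / q)) := by ring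
        _ = 4 * s ^ 3 * (n * q) := by
            rw [show (n:ℝ) / q = q by rw [← hq2]; field_simp]
    unfold K3
    have h3 : (2 * (4 * (s:ℝ) + 3) + 4 * (s:ℝ) ^ 3 + Real.sqrt c0) * (n * q) =
      2 * (4 * s + 3) * (n * q) + 4 * s ^ 3 * (n * q) + e0 := by rw [he0]; ring
    rw [h3]
    have h4 : (23 * (s:ℝ) + 9) * i * n = (3 * s + 1) * i * n + 4 * ((5 * s + 2) * i * n) := by ring
    rw [h4]
    linarith
  -- Turan on S
  have htu := turan_bound Γ S i hi
  have hPsum : (∑ u ∈ S, ((S.filter (fun w => Γ.Adj u w)).card : ℝ)) = P := by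
    rw [hP, prs_eq_sum]; push_cast; rfl
  rw [hPsum, ← hn] at htu
  have hn0 : (0:ℝ) < n := by exact_mod_cast hn1
  have hi1 : (1:ℝ) ≤ i := by exact_mod_cast hi0
  have hk1 := one_le_K3 s c0
  have h4 : q ^ 2 ≤ (23 * s + 10) * i ^ 2 + K3 s c0 * i * q := by
    have h5 : (n:ℝ) * n ≤ ((23 * s + 10) * i ^ 2 + K3 s c0 * i * q) * n := by
      calc (n:ℝ) * n = (n:ℝ) ^ 2 := by ring
        _ ≤ i * (P + n) := htu
        _ ≤ i * (((23 * s + 9) * i * n + K3 s c0 * (n * q)) + n) := by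
            apply mul_le_mul_of_nonneg_left _ (by positivity)
            linarith
        _ = ((23 * s + 9) * i ^ 2 + K3 s c0 * i * q + i) * n := by ring
        _ ≤ ((23 * s + 10) * i ^ 2 + K3 s c0 * i * q) * n := by
            apply mul_le_mul_of_nonneg_right _ hn0.le
            nlinarith
    rw [hq2]
    exact le_of_mul_le_mul_right h5 hn0
  have h6 : q ≤ ((23 * s + 10) + K3 s c0) * i := by
    by_contra hcon
    push Not at hcon
    have h7 : (i:ℝ) ≤ q := by nlinarith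
    nlinarith [mul_pos hq0 (sub_pos.2 hcon), mul_nonneg (mul_nonneg (by positivity : (0:ℝ) ≤ 23 * s + 10) (by positivity : (0:ℝ) ≤ (i:ℝ))) (sub_nonneg.2 h7)]
  rw [← prs_eq_sum, ← hP]
  calc P ≤ (23 * s + 9) * i * n + K3 s c0 * (n * q) := hP1
    _ ≤ (23 * s + 9) * i * n + K3 s c0 * (n * (((23 * s + 10) + K3 s c0) * i)) := by
        have : K3 s c0 * (n * q) ≤ K3 s c0 * (n * (((23 * s + 10) + K3 s c0) * i)) :=
          mul_le_mul_of_nonneg_left (mul_le_mul_of_nonneg_left h6 hn0.le) (by linarith)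
        linarith
    _ = KF s c0 * i * n := by unfold KF; ring

end Pool.Agent.Helper44.Rsl
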