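import Pool.Agent.Helper44.Rsl.Forest

/-! # Graphs with an independent set of vertices of degree at most two hitting each cycle twice -/

set_option autoImplicit false
open Classical

namespace Pool.Agent.Helper44.Rsl
open Pool.Agent.Helper14.Rsl (back)

variable {V : Type}

theorem exists_lift (G : SimpleGraph V) (B : Set V) {u v : B} (q : (G.induce B).Walk u v)
    (hq : q.IsPath) : ∃ q' : G.Walk (u : V) (v : V), q'.IsPath ∧ ∀ z ∈ q'.support, z ∈ B := by
  set φ : G.induce B →g G := (SimpleGraph.Embedding.induce B).toHom with hφ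
  have h1 : (q.map φ).IsPath := hq.map Subtype.val_injective
  have h2 : ∀ z ∈ (q.map φ).support, z ∈ B := by
    intro z hz
    rw [SimpleGraph.Walk.support_map, List.mem_map] at hz
    obtain ⟨a, _, rfl⟩ := hz
    exact a.2
  exact ⟨q.map φ, h1, h2⟩

/-- A graph with a vertex `p` and an independent set `W` of vertices of degree at most two such that
each cycle avoiding `p` contains two vertices of `W`, or is a triangle containing one, is contained
in a graph of the class `BuildF`. -/
theorem exists_buildF_of_hit [Fintype V] (G : SimpleGraph V) (p : V) (W : Set V) (hpW : p ∉ W)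
    (hW : ∀ a ∈ W, ∀ b ∈ W, ¬ G.Adj a b) (hd : ∀ w ∈ W, (G.neighborSet w).encard ≤ 2)
    (hG : ∀ (u : V) (c : G.Walk u u), c.IsCycle → p ∉ c.support →
      (∃ a ∈ c.support, ∃ b ∈ c.support, a ≠ b ∧ a ∈ W ∧ b ∈ W) ∨
      (c.length = 3 ∧ ∃ a ∈ c.support, a ∈ W)) :
    ∃ (T K : SimpleGraph (Option V)) (R : Option V → ℕ) (e : V → Option V), BuildF T K R ∅ ∧
      Function.Injective e ∧ ∀ a b, G.Adj a b → T.Adj (e a) (e b) := by
  set B : Set V := {x | x ≠ p ∧ x ∉ W} with hB
  have hpB : p ∉ B := fun h => h.1 rfl
  obtain ⟨n, ⟨e⟩⟩ := Finite.exists_equiv_fin V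
  set r : V → ℕ := fun v => if v ∈ B ∪ {p} then (e v : ℕ) else n + e v with hr
  have hrB : ∀ v, v ∈ B ∪ {p} → r v = e v := fun v hv => if_pos hv
  have hrO : ∀ v, v ∉ B ∪ {p} → r v = n + e v := fun v hv => if_neg hv
  have hrinj : Function.Injective r := by
    intro a b hab
    have ha := (e a).2
    have hb := (e b).2
    by_cases h1 : a ∈ B ∪ {p}
    · by_cases h2 : b ∈ B ∪ {p}
      · rw [hrB a h1, hrB b h2] at hab
        exact e.injective (Fin.ext hab)
      · rw [hrB a h1, hrO b h2] at hab
        omega
    · by_cases h2 : b ∈ B ∪ {p}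
      · rw [hrO a h1, hrB b h2] at hab
        omega
      · rw [hrO a h1, hrO b h2] at hab
        exact e.injective (Fin.ext (by omega))
  have hout : ∀ w, w ∉ B ∪ {p} → w ∈ W := by
    intro w hw
    by_contra hcon
    exact hw (Or.inl ⟨fun h => hw (Or.inr h), hcon⟩)
  have hin : ∀ w, w ∈ B ∪ {p} → w ∉ W := by
    rintro w (hw | hw)
    · exact hw.2
    · rw [Set.mem_singleton_iff.1 hw]; exact hpW
  refine exists_buildF G B {p} r hrinj Set.subsingleton_singleton
    (fun q hq => by rw [Set.mem_singleton_iff.1 hq]; exact hpB) ?_ ?_ ?_ ?_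
  · -- the induced graph is a forest
    intro u c hc
    set φ : G.induce B →g G := (SimpleGraph.Embedding.induce B).toHom with hφ
    have hc' : (c.map φ).IsCycle := hc.map Subtype.val_injective
    have hsupp : ∀ z ∈ (c.map φ).support, z ∈ B := by
      intro z hz
      rw [SimpleGraph.Walk.support_map, List.mem_map] at hz
      obtain ⟨a, _, rfl⟩ := hz
      exact a.2
    rcases hG _ _ hc' (fun h => hpB (hsupp p h)) with ⟨a, ha, _, _, _, haW, _⟩ | ⟨_, a, ha, haW⟩
    · exact (hsupp a ha).2 haW
    · exact (hsupp a ha).2 haW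
  · intro a ha v hv
    have := (e a).2
    rw [hrB a ha, hrO v hv]
    omega
  · intro w hw
    exact (Set.encard_le_encard (fun z hz => hz.1)).trans (hd w (hout w hw))
  · intro w hw x hx x' hx' hne
    have hwW := hout w hw
    have hmem : ∀ y, G.Adj w y → y ∈ B ∪ {p} := by
      intro y hy
      by_contra hcon
      exact hW w hwW y (hout y hcon) hy
    by_cases hadj : G.Adj x x'
    · exact Or.inl hadj
    · refine Or.inr ⟨hmem x hx.1, hmem x' hx'.1, ?_⟩
      rintro hxB hxB' hreach
      obtain ⟨q, hq⟩ := hreach.exists_isPath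
      obtain ⟨q', hq', hsupp⟩ := exists_lift G B q hq
      have hwB : w ∉ B := fun h => hw (Or.inl h)
      have hwq : w ∉ q'.support := fun h => hwB (hsupp w h)
      have h1 : G.Adj x' w := hx'.1.symm
      have h2 : G.Adj w x := hx.1
      have hp1 : (q'.concat h1).IsPath := hq'.concat hwq h1
      have hp2 : s(w, x) ∉ (q'.concat h1).edges := by
        rw [SimpleGraph.Walk.edges_concat, List.concat_eq_append, List.mem_append,
          List.mem_singleton]
        rintro (h | h)
        · exact hwq (SimpleGraph.Walk.fst_mem_support_of_mem_edges _ h)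
        · rw [Sym2.eq_iff] at h
          rcases h with ⟨h3, _⟩ | ⟨_, h3⟩
          · exact h1.ne h3.symm
          · exact hne h3
      have hcyc : (SimpleGraph.Walk.cons h2 (q'.concat h1)).IsCycle :=
        SimpleGraph.Walk.cons_isCycle_iff _ h2 |>.2 ⟨hp1, hp2⟩
      have hs : ∀ z ∈ (SimpleGraph.Walk.cons h2 (q'.concat h1)).support, z = w ∨ z ∈ B := by
        intro z hz
        rw [SimpleGraph.Walk.support_cons, SimpleGraph.Walk.support_concat, List.mem_cons,
          List.mem_append, List.mem_singleton] at hz
        rcases hz with hz | hz | hz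
        · exact Or.inl hz
        · exact Or.inr (hsupp z hz)
        · exact Or.inl hz
      have hpn : p ∉ (SimpleGraph.Walk.cons h2 (q'.concat h1)).support := by
        intro h
        rcases hs p h with h | h
        · exact hpW (h ▸ hwW)
        · exact hpB h
      rcases hG _ _ hcyc hpn with ⟨a, ha, b, hb, hab, haW, hbW⟩ | ⟨hlen, _⟩
      · have ha' : a = w := (hs a ha).resolve_right (fun h => h.2 haW)
        have hb' : b = w := (hs b hb).resolve_right (fun h => h.2 hbW)
        exact hab (ha'.trans hb'.symm)
      · rw [SimpleGraph.Walk.length_cons, SimpleGraph.Walk.length_concat] at hlen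
        have h3 : q'.length = 1 := by omega
        exact hadj (SimpleGraph.Walk.adj_of_length_eq_one h3)

end Pool.Agent.Helper44.Rsl
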