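import Pool.Agent.Helper6.Rsl.PeelK

/-! # Peeling a pair of graphs `M ≤ Γ`, with cores in the black neighbourhoods -/

set_option autoImplicit false
open Classical Finset

namespace Pool.Agent.Helper44.Rsl
open Pool.Agent.Helper30.TwoTree (prs tri restr nb)
open Pool.Agent.Helper6.Rsl

variable {X : Type} [Fintype X]

/-- `Z` contains a nonempty set in which all degrees are at least `s` -/
def HasCore (s : ℕ) (Γ : SimpleGraph X) (Z : Finset X) : Prop :=
  ∃ W ⊆ Z, W.Nonempty ∧ ∀ w ∈ W, s ≤ (W.filter (fun z => Γ.Adj w z)).card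

/-- ordered adjacent pairs in `Z` -/
noncomputable def dp (Γ : SimpleGraph X) (Z : Finset X) : Finset (X × X) :=
  (Z ×ˢ Z).filter (fun p => Γ.Adj p.1 p.2)

omit [Fintype X] in
theorem dp_erase (Γ : SimpleGraph X) (Z : Finset X) (w : X) :
    (dp Γ Z).card ≤ (dp Γ (Z.erase w)).card + 2 * (Z.filter (fun z => Γ.Adj w z)).card := by
  have h1 : dp Γ Z ⊆ dp Γ (Z.erase w) ∪ ((Z.filter (fun z => Γ.Adj w z)).image (fun z => (w, z)) ∪
      (Z.filter (fun z => Γ.Adj w z)).image (fun z => (z, w))) := by
    rintro ⟨a, b⟩ hp
    simp only [dp, mem_filter, mem_product] at hp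
    obtain ⟨⟨ha, hb⟩, hab⟩ := hp
    simp only [dp, mem_union, mem_filter, mem_product, mem_erase, mem_image, Prod.mk.injEq]
    by_cases h1 : a = w
    · right; left
      exact ⟨b, ⟨hb, by rw [← h1]; exact hab⟩, h1.symm, rfl⟩
    · by_cases h2 : b = w
      · right; right
        exact ⟨a, ⟨ha, by rw [← h2]; exact hab.symm⟩, rfl, h2.symm⟩
      · exact Or.inl ⟨⟨⟨h1, ha⟩, h2, hb⟩, hab⟩
  refine (Finset.card_le_card h1).trans ((Finset.card_union_le _ _).trans ?_)
  refine Nat.add_le_add_left ((Finset.card_union_le _ _).trans ?_) _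
  have e1 : ((Z.filter (fun z => Γ.Adj w z)).image (fun z => (w, z))).card ≤
    (Z.filter (fun z => Γ.Adj w z)).card := Finset.card_image_le
  have e2 : ((Z.filter (fun z => Γ.Adj w z)).image (fun z => (z, w))).card ≤
    (Z.filter (fun z => Γ.Adj w z)).card := Finset.card_image_le
  omega

omit [Fintype X] in
/-- a set without a core spans few edges -/
theorem dp_le (s : ℕ) (Γ : SimpleGraph X) (k : ℕ) : ∀ Z : Finset X, Z.card ≤ k →
    (¬ ∃ W ⊆ Z, W.Nonempty ∧ ∀ w ∈ W, s ≤ (W.filter (fun z => Γ.Adj w z)).card) →
    (dp Γ Z).card ≤ 2 * s * Z.card := by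
  induction k with
  | zero =>
    intro Z hZ _
    have h1 : Z = ∅ := Finset.card_eq_zero.1 (by omega)
    rw [h1]
    simp [dp]
  | succ k ih =>
    intro Z hZ hno
    rcases Z.eq_empty_or_nonempty with h1 | h1
    · rw [h1]
      simp [dp]
    · obtain ⟨w, hw, hc⟩ : ∃ w ∈ Z, (Z.filter (fun z => Γ.Adj w z)).card < s := by
        by_contra hcon
        push Not at hcon
        exact hno ⟨Z, Finset.Subset.refl _, h1, hcon⟩
      have h2 := Finset.card_erase_add_one hw
      have h3 := ih (Z.erase w) (by omega) (by
        rintro ⟨W, hW, h4⟩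
        exact hno ⟨W, hW.trans (Finset.erase_subset _ _), h4⟩)
      have h5 := dp_erase Γ Z w
      calc (dp Γ Z).card ≤ (dp Γ (Z.erase w)).card + 2 * (Z.filter (fun z => Γ.Adj w z)).card := h5
        _ ≤ 2 * s * (Z.erase w).card + 2 * s := Nat.add_le_add h3 (Nat.mul_le_mul_left _ hc.le)
        _ = 2 * s * Z.card := by rw [← h2]; ring

/-- nothing to peel -/
structure CleanF (s δ : ℕ) (Γ M : SimpleGraph X) : Prop where
  tri : ∀ x y, Γ.Adj x y → s ≤ (cn Γ x y).card
  chy : ∀ x y, M.Adj x y → s ≤ (bn Γ M x y).card
  few : ∀ x y, M.Adj x y → 4 * s * (bp s M y x).card ≤ (nbr M y).card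
  deg : ∀ y, (∃ z, Γ.Adj y z) → δ ≤ (nbr M y).card
  cor : ∀ y, ∀ Z ⊆ nbr M y, (nbr M y).Nonempty → (nbr M y).card ≤ 2 * Z.card → HasCore s Γ Z

/-- inserting a star -/
theorem cch_star (C : Finset (X × X)) (Γ : SimpleGraph X) (y : X) (Z : Finset X)
    (hC : ∀ p ∈ C, p.1 ≠ y) :
    (cch (C ∪ Z.image (fun z => (y, z))) Γ).card ≤ (cch C Γ).card + (dp Γ Z).card := by
  have h1 : cch (C ∪ Z.image (fun z => (y, z))) Γ ⊆
      cch C Γ ∪ (dp Γ Z).image (fun p => (y, p.1, p.2)) := by
    rintro ⟨v, a, b⟩ hp
    simp only [cch, mem_filter, mem_univ, true_and, mem_union, mem_image, Prod.mk.injEq] at hp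
    obtain ⟨h1, h2, h3⟩ := hp
    simp only [mem_union, mem_image, Prod.mk.injEq, cch, mem_filter, mem_univ, true_and, dp,
      mem_product]
    rcases h1 with h1 | ⟨z, hz, hz1, hz2⟩
    · rcases h2 with h2 | ⟨z', _, hz1', _⟩
      · exact Or.inl ⟨h1, h2, h3⟩
      · exact absurd hz1'.symm (hC _ h1)
    · rcases h2 with h2 | ⟨z', hz', hz1', hz2'⟩
      · exact absurd hz1.symm (hC _ h2)
      · subst hz2
        subst hz2'
        exact Or.inr ⟨(z, z'), ⟨⟨hz, hz'⟩, h3⟩, hz1, rfl, rfl⟩
  refine (Finset.card_le_card h1).trans ((Finset.card_union_le _ _).trans ?_)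
  exact Nat.add_le_add_left Finset.card_image_le _

/-- the peeling lemma for a pair of graphs -/
theorem peelF (s δ : ℕ) (e0 : ℝ) (hs : 0 < s) (hδ : 0 < δ) (k : ℕ) : ∀ Γ M : SimpleGraph X,
    (prs Γ).card + (prs M).card ≤ k → M ≤ Γ →
    (∀ Γ' M' : SimpleGraph X, Γ' ≤ Γ → M' ≤ M → M' ≤ Γ' → CleanF s δ Γ' M' → ((prs M').card : ℝ) ≤ e0) →
    ∃ (E : SimpleGraph X) (C : Finset (X × X)), E ≤ Γ ∧ (∀ p ∈ C, M.Adj p.1 p.2) ∧
      (chr E Γ).card ≤ 3 * s * (prs E).card ∧
      (cch C Γ).card ≤ 2 * s * C.card + s * (prs E).card ∧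
      ((prs M).card : ℝ) ≤ (prs E).card + 4 * C.card + 2 * δ * (niv Γ).card +
        4 * s ^ 2 / δ * Phi s M + e0 := by
  have hδ' : (0:ℝ) < δ := by exact_mod_cast hδ
  have hclean : ∀ Γ M : SimpleGraph X, M ≤ Γ →
    (∀ Γ' M' : SimpleGraph X, Γ' ≤ Γ → M' ≤ M → M' ≤ Γ' → CleanF s δ Γ' M' → ((prs M').card : ℝ) ≤ e0) →
    CleanF s δ Γ M →
    ∃ (E : SimpleGraph X) (C : Finset (X × X)), E ≤ Γ ∧ (∀ p ∈ C, M.Adj p.1 p.2) ∧
      (chr E Γ).card ≤ 3 * s * (prs E).card ∧
      (cch C Γ).card ≤ 2 * s * C.card + s * (prs E).card ∧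
      ((prs M).card : ℝ) ≤ (prs E).card + 4 * C.card + 2 * δ * (niv Γ).card +
        4 * s ^ 2 / δ * Phi s M + e0 := by
    intro Γ M hM hbase hcl
    refine ⟨⊥, ∅, bot_le, fun p hp => absurd hp (Finset.notMem_empty p), ?_, ?_, ?_⟩
    · have : chr (⊥ : SimpleGraph X) Γ = ∅ := by
        apply Finset.eq_empty_of_forall_notMem
        intro p hp
        simp only [chr, mem_filter, mem_univ, true_and] at hp
        exact hp.1
      rw [this]; simp
    · have : cch (∅ : Finset (X × X)) Γ = ∅ := by
        apply Finset.eq_empty_of_forall_notMem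
        intro p hp
        simp only [cch, mem_filter, mem_univ, true_and] at hp
        exact Finset.notMem_empty _ hp.1
      rw [this]; simp
    · have h0 := hbase Γ M le_rfl le_rfl hM hcl
      have h1 : (0:ℝ) ≤ (prs (⊥ : SimpleGraph X)).card + 4 * (∅ : Finset (X × X)).card +
        2 * δ * (niv Γ).card + 4 * s ^ 2 / δ * Phi s M := by positivity
      linarith
  induction k with
  | zero =>
    intro Γ M hk hM hbase
    have hno : ∀ x y, ¬ Γ.Adj x y := by
      intro x y h
      have : (x, y) ∈ prs Γ := by simpa [prs] using h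
      have h1 : 0 < (prs Γ).card := Finset.card_pos.2 ⟨_, this⟩
      omega
    refine hclean Γ M hM hbase ⟨fun x y h => absurd h (hno x y), fun x y h => absurd (hM h) (hno x y),
      fun x y h => absurd (hM h) (hno x y), fun y ⟨z, h⟩ => absurd h (hno y z), ?_⟩
    intro y Z _ hne _
    obtain ⟨z, hz⟩ := hne
    simp only [nbr, mem_filter, mem_univ, true_and] at hz
    exact absurd (hM hz) (hno y z)
  | succ k ih =>
    intro Γ M hk hM hbase
    by_cases hO1 : ∃ x y, Γ.Adj x y ∧ (cn Γ x y).card < s
    · -- (O1)
      obtain ⟨x, y, hxy, hc⟩ := hO1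
      have hprs := prs_delE Γ x y hxy
      have hMle : delE M x y ≤ delE Γ x y := fun a b h => ⟨hM h.1, h.2⟩
      have hprsM : (prs M).card ≤ (prs (delE M x y)).card + 2 := by
        by_cases hm : M.Adj x y
        · exact (prs_delE M x y hm).ge
        · have : prs M ⊆ prs (delE M x y) := by
            rintro ⟨a, b⟩ hp
            simp only [prs, mem_filter, mem_univ, true_and, delE] at hp ⊢
            refine ⟨hp, ?_, ?_⟩
            · rintro ⟨rfl, rfl⟩; exact hm hp
            · rintro ⟨rfl, rfl⟩; exact hm hp.symm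
          have := Finset.card_le_card this
          omega
      have hprsM' : (prs (delE M x y)).card ≤ (prs M).card := by
        refine Finset.card_le_card ?_
        intro p hp
        simp only [prs, mem_filter, mem_univ, true_and] at hp ⊢
        exact hp.1
      obtain ⟨E, C, hE, hC, hchr, hcch, hle⟩ := ih (delE Γ x y) (delE M x y) (by omega) hMle
        (fun Γ' M' h1 h2 h3 h4 => hbase Γ' M' (h1.trans (delE_le Γ x y)) (h2.trans (delE_le M x y)) h3 h4)
      have hprsE := prs_addE E Γ x y hxy hE
      refine ⟨addE E x y hxy.ne, C, ?_, fun p hp => (hC p hp).1, ?_, ?_, ?_⟩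
      · intro a b h
        rcases h with h | ⟨rfl, rfl⟩ | ⟨rfl, rfl⟩
        · exact (hE h).1
        · exact hxy
        · exact hxy.symm
      · have h1 := chr_addE E Γ x y hxy hE s hc.le
        calc (chr (addE E x y hxy.ne) Γ).card ≤ (chr E (delE Γ x y)).card + 6 * s := h1
          _ ≤ 3 * s * (prs E).card + 6 * s := Nat.add_le_add_right hchr _
          _ = 3 * s * ((prs E).card + 2) := by ring
          _ = 3 * s * (prs (addE E x y hxy.ne)).card := by rw [hprsE]
      · have h1 := cch_delE C Γ M x y s hM hC hc.le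
        calc (cch C Γ).card ≤ (cch C (delE Γ x y)).card + 2 * s := h1
          _ ≤ 2 * s * C.card + s * (prs E).card + 2 * s := Nat.add_le_add_right hcch _
          _ = 2 * s * C.card + s * ((prs E).card + 2) := by ring
          _ = 2 * s * C.card + s * (prs (addE E x y hxy.ne)).card := by rw [hprsE]
      · have h1 : ((prs M).card : ℝ) ≤ (prs (delE M x y)).card + 2 := by exact_mod_cast hprsM
        have h2 : ((prs (addE E x y hxy.ne)).card : ℝ) = (prs E).card + 2 := by
          rw [← hprsE]; push_cast; ring
        have h3 : ((niv (delE Γ x y)).card : ℝ) ≤ (niv Γ).card := by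
          exact_mod_cast Finset.card_le_card (niv_mono (delE_le Γ x y))
        have h4 : (Phi s (delE M x y) : ℝ) ≤ Phi s M := by exact_mod_cast Phi_mono s (delE_le M x y)
        have h5 : (0:ℝ) ≤ 2 * δ := by positivity
        have h6 : (0:ℝ) ≤ 4 * s ^ 2 / δ := by positivity
        have h7 := mul_le_mul_of_nonneg_left h3 h5
        have h8 := mul_le_mul_of_nonneg_left h4 h6
        rw [h2]
        linarith
    · push Not at hO1
      by_cases hO4 : ∃ y, (∃ z, Γ.Adj y z) ∧ (nbr M y).card < δ
      · -- (O4)
        obtain ⟨y, hy, hyc⟩ := hO4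
        have hprs' := prs_delV_lt Γ y hy
        have hprsM := prs_delV M y
        have hMle : delV M y ≤ delV Γ y := fun a b h => ⟨hM h.1, h.2⟩
        have hprsM' : (prs (delV M y)).card ≤ (prs M).card := by
          refine Finset.card_le_card ?_
          intro p hp
          simp only [prs, mem_filter, mem_univ, true_and] at hp ⊢
          exact hp.1
        obtain ⟨E, C, hE, hC, hchr, hcch, hle⟩ := ih (delV Γ y) (delV M y) (by omega) hMle
          (fun Γ' M' h1 h2 h3 h4 => hbase Γ' M' (h1.trans (delV_le Γ y)) (h2.trans (delV_le M y)) h3 h4)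
        refine ⟨E, C, hE.trans (delV_le Γ y), fun p hp => (hC p hp).1, ?_, ?_, ?_⟩
        · rw [chr_delV E Γ y hE]; exact hchr
        · rw [cch_delV C Γ M y hC]; exact hcch
        · have h1 : ((prs M).card : ℝ) ≤ (prs (delV M y)).card + 2 * (nbr M y).card := by
            exact_mod_cast hprsM
          have h2 : ((niv (delV Γ y)).card : ℝ) + 1 ≤ (niv Γ).card := by exact_mod_cast niv_delV Γ y hy
          have h3 : (Phi s (delV M y) : ℝ) ≤ Phi s M := by exact_mod_cast Phi_mono s (delV_le M y)
          have h5 : (0:ℝ) ≤ 2 * δ := by positivity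
          have h6 : (0:ℝ) ≤ 4 * s ^ 2 / δ := by positivity
          have h7 := mul_le_mul_of_nonneg_left h2 h5
          have h8 := mul_le_mul_of_nonneg_left h3 h6
          have h9 : ((nbr M y).card : ℝ) ≤ δ := by exact_mod_cast hyc.le
          linarith
      · push Not at hO4
        by_cases hO2 : ∃ x y, M.Adj x y ∧ (bn Γ M x y).card < s
        · -- (O2)
          obtain ⟨x, y, hxy, hc⟩ := hO2
          have hprs := prs_delE M x y hxy
          obtain ⟨E, C, hE, hC, hchr, hcch, hle⟩ := ih Γ (delE M x y) (by omega)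
            ((delE_le M x y).trans hM)
            (fun Γ' M' h1 h2 h3 h4 => hbase Γ' M' h1 (h2.trans (delE_le M x y)) h3 h4)
          have hnot : (x, y) ∉ C := fun h => (hC _ h).2.1 ⟨rfl, rfl⟩
          refine ⟨E, insert (x, y) C, hE, ?_, hchr, ?_, ?_⟩
          · intro p hp
            rcases Finset.mem_insert.1 hp with rfl | hp
            · exact hxy
            · exact (hC p hp).1
          · have h1 := cch_insert C Γ M x y s (fun p hp => (hC p hp).1) hc.le
            rw [Finset.card_insert_of_notMem hnot]
            calc (cch (insert (x, y) C) Γ).card ≤ (cch C Γ).card + 2 * s := h1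
              _ ≤ 2 * s * C.card + s * (prs E).card + 2 * s := Nat.add_le_add_right hcch _
              _ = 2 * s * (C.card + 1) + s * (prs E).card := by ring
          · have h1 : ((prs M).card : ℝ) = (prs (delE M x y)).card + 2 := by
              rw [← hprs]; push_cast; ring
            have h2 : ((insert (x, y) C).card : ℝ) = C.card + 1 := by
              rw [Finset.card_insert_of_notMem hnot]; push_cast; ring
            have h4 : (Phi s (delE M x y) : ℝ) ≤ Phi s M := by exact_mod_cast Phi_mono s (delE_le M x y)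
            have h6 : (0:ℝ) ≤ 4 * s ^ 2 / δ := by positivity
            have h8 := mul_le_mul_of_nonneg_left h4 h6
            rw [h1, h2]
            linarith
        · push Not at hO2
          by_cases hO3 : ∃ x y, M.Adj x y ∧ (nbr M y).card < 4 * s * (bp s M y x).card
          · -- (O3)
            obtain ⟨x, y, hxy, hc⟩ := hO3
            have hprs := prs_delE M x y hxy
            have hdy := hO4 y ⟨x, hM hxy.symm⟩
            obtain ⟨E, C, hE, hC, hchr, hcch, hle⟩ := ih Γ (delE M x y) (by omega)
              ((delE_le M x y).trans hM)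
              (fun Γ' M' h1 h2 h3 h4 => hbase Γ' M' h1 (h2.trans (delE_le M x y)) h3 h4)
            refine ⟨E, C, hE, fun p hp => (hC p hp).1, hchr, hcch, ?_⟩
            have h1 : ((prs M).card : ℝ) = (prs (delE M x y)).card + 2 := by
              rw [← hprs]; push_cast; ring
            set L : ℕ := (ltp s M y x).card + (ltp s M x y).card with hL
            have h3 : (Phi s (delE M x y) : ℝ) + 2 * L ≤ Phi s M := by
              exact_mod_cast Phi_delE s M x y hxy
            have h6 : (0:ℝ) ≤ 4 * s ^ 2 / δ := by positivity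
            have h8 := mul_le_mul_of_nonneg_left h3 h6
            have h9 : (2:ℝ) ≤ 4 * s ^ 2 / δ * (2 * L) := by
              rw [div_mul_eq_mul_div, le_div_iff₀ hδ']
              have h10 : (δ:ℝ) ≤ 4 * s ^ 2 * L := by
                have h11 : 4 * s * (bp s M y x).card ≤ 4 * s * (s * L) :=
                  Nat.mul_le_mul_left _ (bp_card_le s hs M x y)
                have h12 : δ ≤ 4 * s ^ 2 * L := by
                  have : 4 * s * (s * L) = 4 * s ^ 2 * L := by ring
                  omega
                exact_mod_cast h12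
              nlinarith
            rw [h1]
            nlinarith
          · push Not at hO3
            by_cases hO5 : ∃ y, ∃ Z ⊆ nbr M y, (nbr M y).Nonempty ∧
                (nbr M y).card ≤ 2 * Z.card ∧ ¬ HasCore s Γ Z
            · -- (O5)
              obtain ⟨y, Z, hZ, hne, hZc, hno⟩ := hO5
              have hy : ∃ z, M.Adj y z := by
                obtain ⟨z, hz⟩ := hne
                exact ⟨z, by simpa [nbr] using hz⟩
              have hprs := prs_delV M y
              have hprs' := prs_delV_lt M y hy
              obtain ⟨E, C, hE, hC, hchr, hcch, hle⟩ := ih Γ (delV M y) (by omega)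
                ((delV_le M y).trans hM)
                (fun Γ' M' h1 h2 h3 h4 => hbase Γ' M' h1 (h2.trans (delV_le M y)) h3 h4)
              have hdisj : Disjoint C (Z.image (fun z => (y, z))) := by
                rw [Finset.disjoint_left]
                rintro p hp hp'
                obtain ⟨z, _, rfl⟩ := Finset.mem_image.1 hp'
                exact (hC _ hp).2.1 rfl
              have himg : (Z.image (fun z => (y, z))).card = Z.card :=
                Finset.card_image_of_injective _ (fun a b h => (Prod.mk.inj h).2)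
              have hcard : (C ∪ Z.image (fun z => (y, z))).card = C.card + Z.card := by
                rw [Finset.card_union_of_disjoint hdisj, himg]
              refine ⟨E, C ∪ Z.image (fun z => (y, z)), hE, ?_, hchr, ?_, ?_⟩
              · intro p hp
                rcases Finset.mem_union.1 hp with hp | hp
                · exact (hC p hp).1
                · obtain ⟨z, hz, rfl⟩ := Finset.mem_image.1 hp
                  have := hZ hz
                  simpa [nbr] using this
              · have h1 := cch_star C Γ y Z (fun p hp => (hC p hp).2.1)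
                have h2 := dp_le s Γ Z.card Z le_rfl hno
                rw [hcard]
                calc (cch (C ∪ Z.image (fun z => (y, z))) Γ).card
                    ≤ (cch C Γ).card + (dp Γ Z).card := h1
                  _ ≤ (2 * s * C.card + s * (prs E).card) + 2 * s * Z.card := Nat.add_le_add hcch h2
                  _ = 2 * s * (C.card + Z.card) + s * (prs E).card := by ring
              · have h1 : ((prs M).card : ℝ) ≤ (prs (delV M y)).card + 2 * (nbr M y).card := by
                  exact_mod_cast hprs
                have h2 : ((C ∪ Z.image (fun z => (y, z))).card : ℝ) = C.card + Z.card := by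
                  rw [hcard]; push_cast; ring
                have h3 : (Phi s (delV M y) : ℝ) ≤ Phi s M := by exact_mod_cast Phi_mono s (delV_le M y)
                have h6 : (0:ℝ) ≤ 4 * s ^ 2 / δ := by positivity
                have h8 := mul_le_mul_of_nonneg_left h3 h6
                have h9 : ((nbr M y).card : ℝ) ≤ 2 * Z.card := by exact_mod_cast hZc
                rw [h2]
                linarith
            · push Not at hO5
              exact hclean Γ M hM hbase ⟨hO1, hO2, hO3, hO4, hO5⟩

end Pool.Agent.Helper44.Rsl
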